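import Mathlib

/-!
The affine symmetries of a convex body have a common fixed point (the centroid) and their linear
parts are isometries for a Euclidean structure (given by the inertia form of the body).
-/

set_option autoImplicit false
set_option linter.unusedSectionVars false
set_option linter.style.haveILetI false

open MeasureTheory Set Module

namespace Pool.Agent.Zk76.Wt

section

variable {E : Type*} [NormedAddCommGroup E] [NormedSpace ℝ E] [FiniteDimensional ℝ E]
  [MeasurableSpace E] [BorelSpace E]

/-- the affine map as a sum of its linear part and a constant -/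
theorem aff_eq (g : E ≃ᵃ[ℝ] E) (x : E) : g x = g.linear x + g 0 := by
  have h := g.map_vadd (0 : E) x
  simpa using h

theorem int_image {K : Set E} (hc : IsCompact K) (g : E ≃ᵃ[ℝ] E) {F : Type*}
    [NormedAddCommGroup F] [NormedSpace ℝ F] (f : E → F) (μ : Measure E) [μ.IsAddHaarMeasure] :
    ∫ x in g '' K, f x ∂μ =
      |((g.linear : E →ₗ[ℝ] E)).det| • ∫ x in K, f (g x) ∂μ := by
  have h := integral_image_eq_integral_abs_det_fderiv_smul μ (s := K) (f := g)
    (f' := fun _ => LinearMap.toContinuousLinearMap (g.linear : E →ₗ[ℝ] E))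
    hc.measurableSet (fun x _ => by
      have h1 : HasFDerivAt (fun x => LinearMap.toContinuousLinearMap (g.linear : E →ₗ[ℝ] E) x + g 0)
          (LinearMap.toContinuousLinearMap (g.linear : E →ₗ[ℝ] E)) x :=
        (ContinuousLinearMap.hasFDerivAt _).add_const _
      have h2 : (fun x => LinearMap.toContinuousLinearMap (g.linear : E →ₗ[ℝ] E) x + g 0) = g := by
        funext y
        exact (aff_eq g y).symm
      rw [h2] at h1
      exact h1.hasFDerivWithinAt) g.injective.injOn f
  rw [h, ← integral_smul]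
  rfl

theorem det_abs {K : Set E} (hc : IsCompact K) (hi : (interior K).Nonempty) (g : E ≃ᵃ[ℝ] E)
    (hg : g '' K = K) (μ : Measure E) [μ.IsAddHaarMeasure] :
    |((g.linear : E →ₗ[ℝ] E)).det| = 1 := by
  have h := int_image hc g (fun _ => (1 : ℝ)) μ
  rw [hg] at h
  simp only [integral_const, smul_eq_mul, mul_one, measureReal_restrict_apply_univ] at h
  have h1 : 0 < μ.real K := by
    rw [measureReal_def]
    refine ENNReal.toReal_pos ?_ hc.measure_lt_top.ne
    have : 0 < μ (interior K) := isOpen_interior.measure_pos μ hi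
    exact (this.trans_le (measure_mono interior_subset)).ne'
  have h2 : (|((g.linear : E →ₗ[ℝ] E)).det| - 1) * μ.real K = 0 := by linarith
  rcases mul_eq_zero.1 h2 with h3 | h3
  · linarith
  · exact absurd h3 h1.ne'

theorem int_comp {K : Set E} (hc : IsCompact K) (hi : (interior K).Nonempty) (g : E ≃ᵃ[ℝ] E)
    (hg : g '' K = K) {F : Type*} [NormedAddCommGroup F] [NormedSpace ℝ F] (f : E → F)
    (μ : Measure E) [μ.IsAddHaarMeasure] :
    ∫ x in K, f (g x) ∂μ = ∫ x in K, f x ∂μ := by
  have h := int_image hc g f μ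
  rw [hg, det_abs hc hi g hg μ, one_smul] at h
  exact h.symm

theorem real_pos {K : Set E} (hc : IsCompact K) (hi : (interior K).Nonempty)
    (μ : Measure E) [μ.IsAddHaarMeasure] : 0 < μ.real K := by
  rw [measureReal_def]
  refine ENNReal.toReal_pos ?_ hc.measure_lt_top.ne
  have : 0 < μ (interior K) := isOpen_interior.measure_pos μ hi
  exact (this.trans_le (measure_mono interior_subset)).ne'

/-- the centroid -/
noncomputable def cent (K : Set E) (μ : Measure E) : E := (μ.real K)⁻¹ • ∫ x in K, x ∂μ

theorem cent_fixed {K : Set E} (hc : IsCompact K) (hi : (interior K).Nonempty) (g : E ≃ᵃ[ℝ] E)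
    (hg : g '' K = K) (μ : Measure E) [μ.IsAddHaarMeasure] : g (cent K μ) = cent K μ := by
  have hpos := real_pos hc hi μ
  have h := int_comp hc hi g hg (fun x => x) μ
  have hint : IntegrableOn (fun x : E => x) K μ := continuous_id.continuousOn.integrableOn_compact hc
  let A : E →L[ℝ] E := LinearMap.toContinuousLinearMap (g.linear : E →ₗ[ℝ] E)
  have h1 : ∫ x in K, g x ∂μ = A (∫ x in K, x ∂μ) + μ.real K • g 0 := by
    have e : (fun x => g x) = fun x => A x + g 0 := by
      funext x
      exact aff_eq g x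
    rw [e, integral_add (A.integrable_comp hint) (integrableOn_const hc.measure_lt_top.ne),
      A.integral_comp_comm hint]
    simp
  rw [h1] at h
  have h2 : g (cent K μ) = A (cent K μ) + g 0 := aff_eq g _
  rw [h2, cent, map_smul]
  have h3 : g 0 = (μ.real K)⁻¹ • (μ.real K • g 0) := by
    rw [smul_smul, inv_mul_cancel₀ hpos.ne', one_smul]
  rw [h3, ← smul_add, h]

/-- the inertia form on the dual space -/
@[instance_reducible]
noncomputable def core {K : Set E} (hc : IsCompact K) (hi : (interior K).Nonempty)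
    (μ : Measure E) [μ.IsAddHaarMeasure] : InnerProductSpace.Core ℝ (Module.Dual ℝ E) where
  inner f h := ∫ x in K, f (x - cent K μ) * h (x - cent K μ) ∂μ
  conj_inner_symm f h := by
    simp [mul_comm]
  re_inner_nonneg f := by
    simp only [RCLike.re_to_real]
    exact integral_nonneg fun x => mul_self_nonneg _
  add_left f g h := by
    have hI : ∀ f h : Module.Dual ℝ E, IntegrableOn
        (fun x => f (x - cent K μ) * h (x - cent K μ)) K μ := by
      intro f h
      have hf : Continuous f := LinearMap.continuous_of_finiteDimensional f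
      have hh : Continuous h := LinearMap.continuous_of_finiteDimensional h
      exact (by fun_prop : Continuous fun x => f (x - cent K μ) * h (x - cent K μ)).continuousOn.integrableOn_compact hc
    rw [← integral_add (hI f h) (hI g h)]
    refine integral_congr_ae (Filter.Eventually.of_forall fun x => ?_)
    simp [add_mul]
  smul_left f h r := by
    simp only [conj_trivial]
    rw [← integral_const_mul]
    refine integral_congr_ae (Filter.Eventually.of_forall fun x => ?_)
    simp [mul_assoc]
  definite f h := by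
    have hf : Continuous f := LinearMap.continuous_of_finiteDimensional f
    have hcont : Continuous fun x => f (x - cent K μ) * f (x - cent K μ) := by fun_prop
    have h1 : (fun x => f (x - cent K μ) * f (x - cent K μ)) =ᵐ[μ.restrict K] 0 := by
      refine (integral_eq_zero_iff_of_nonneg (fun x => mul_self_nonneg _)
        (hcont.continuousOn.integrableOn_compact hc)).1 h
    have h2 : (fun x => f (x - cent K μ) * f (x - cent K μ)) =ᵐ[μ.restrict (interior K)] 0 :=
      ae_mono (Measure.restrict_mono interior_subset le_rfl) h1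
    have h3 : EqOn (fun x => f (x - cent K μ) * f (x - cent K μ)) 0 (interior K) :=
      Measure.eqOn_open_of_ae_eq h2 isOpen_interior hcont.continuousOn continuousOn_const
    obtain ⟨y, hy⟩ := hi
    obtain ⟨ε, hε, hb⟩ := Metric.isOpen_iff.1 isOpen_interior y hy
    have h4 : ∀ x ∈ interior K, f (x - cent K μ) = 0 := fun x hx =>
      mul_self_eq_zero.1 (h3 hx)
    ext v
    by_cases hv : v = 0
    · simp [hv]
    have hv' : 0 < ‖v‖ := norm_pos_iff.2 hv
    have h5 : y + (ε / (2 * ‖v‖)) • v ∈ interior K := by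
      apply hb
      rw [Metric.mem_ball, dist_eq_norm, add_sub_cancel_left, norm_smul, Real.norm_eq_abs,
        abs_of_pos (by positivity)]
      have : ε / (2 * ‖v‖) * ‖v‖ = ε / 2 := by field_simp
      rw [this]
      linarith
    have h6 := h4 _ h5
    have h7 := h4 _ hy
    have h8 : y + (ε / (2 * ‖v‖)) • v - cent K μ = (y - cent K μ) + (ε / (2 * ‖v‖)) • v := by abel
    rw [h8, map_add, h7, map_smul, zero_add, smul_eq_mul] at h6
    rcases mul_eq_zero.1 h6 with h9 | h9
    · exact absurd h9 (by positivity)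
    · simpa using h9

/-- composition with the linear part of a symmetry preserves the inertia form -/
theorem core_inv {K : Set E} (hc : IsCompact K) (hi : (interior K).Nonempty)
    (μ : Measure E) [μ.IsAddHaarMeasure] (g : E ≃ᵃ[ℝ] E) (hg : g '' K = K)
    (f h : Module.Dual ℝ E) :
    (core hc hi μ).inner (f ∘ₗ (g.linear : E →ₗ[ℝ] E)) (h ∘ₗ (g.linear : E →ₗ[ℝ] E)) =
      (core hc hi μ).inner f h := by
  have h1 := int_comp hc hi g hg (fun x => f (x - cent K μ) * h (x - cent K μ)) μ
  change ∫ x in K, f (g.linear (x - cent K μ)) * h (g.linear (x - cent K μ)) ∂μ =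
    ∫ x in K, f (x - cent K μ) * h (x - cent K μ) ∂μ
  rw [← h1]
  refine integral_congr_ae (Filter.Eventually.of_forall fun x => ?_)
  have h2 : g.linear (x - cent K μ) = g x - cent K μ := by
    rw [map_sub, aff_eq g x]
    have := cent_fixed hc hi g hg μ
    rw [aff_eq g] at this
    nth_rewrite 2 [← this]
    abel
  simp only [h2]

theorem symm_image {K : Set E} (g : E ≃ᵃ[ℝ] E) (hg : g '' K = K) : g.symm '' K = K := by
  nth_rewrite 1 [← hg]
  rw [image_image]
  simp

/-- a Euclidean structure for which the linear parts of all symmetries are isometries -/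
theorem exists_frame {K : Set E} (hc : IsCompact K) (hi : (interior K).Nonempty)
    (μ : Measure E) [μ.IsAddHaarMeasure] {n : ℕ} (hn : finrank ℝ E = n) :
    ∃ Φ : E ≃L[ℝ] EuclideanSpace ℝ (Fin n),
      ∀ g : E ≃ᵃ[ℝ] E, g '' K = K → ∀ x, ‖Φ (g.linear x)‖ = ‖Φ x‖ := by
  letI cd : InnerProductSpace.Core ℝ (Module.Dual ℝ E) := core hc hi μ
  letI : NormedAddCommGroup (Module.Dual ℝ E) := cd.toNormedAddCommGroup
  letI : InnerProductSpace ℝ (Module.Dual ℝ E) := InnerProductSpace.ofCore cd.toCore
  have hinner : ∀ f h : Module.Dual ℝ E, inner ℝ f h = (core hc hi μ).inner f h := fun f h => rfl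
  have hfin : finrank ℝ (Module.Dual ℝ E) = n := by rw [Subspace.dual_finrank_eq, hn]
  let b : OrthonormalBasis (Fin n) ℝ (Module.Dual ℝ E) :=
    (stdOrthonormalBasis ℝ (Module.Dual ℝ E)).reindex (finCongr hfin)
  let w : E → Module.Dual ℝ E := fun x => ∑ i, (b i x) • b i
  have hw : ∀ x (f : Module.Dual ℝ E), inner ℝ (w x) f = f x := by
    intro x f
    have h1 : (∑ i, inner ℝ (b i) f • b i) = f := b.sum_repr' f
    have h2 : (∑ i, inner ℝ (b i) f • b i) x = f x := by rw [h1]
    rw [← h2]
    simp only [w, sum_inner, inner_smul_left, LinearMap.sum_apply, LinearMap.smul_apply,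
      smul_eq_mul, conj_trivial]
    exact Finset.sum_congr rfl fun i _ => mul_comm _ _
  let Φ₀ : E →ₗ[ℝ] EuclideanSpace ℝ (Fin n) :=
    { toFun := fun x => WithLp.toLp 2 fun i => b i x
      map_add' := fun x y => by
        ext i
        simp
      map_smul' := fun r x => by
        ext i
        simp }
  have hΦn : ∀ x, ‖Φ₀ x‖ = ‖w x‖ := by
    intro x
    have h1 : ‖Φ₀ x‖ ^ 2 = ‖w x‖ ^ 2 := by
      rw [EuclideanSpace.norm_sq_eq, ← b.sum_sq_norm_inner_right (w x)]
      refine Finset.sum_congr rfl fun i _ => ?_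
      rw [real_inner_comm, hw]
      rfl
    exact (sq_eq_sq₀ (norm_nonneg _) (norm_nonneg _)).1 h1
  have hinj : Function.Injective Φ₀ := by
    rw [← LinearMap.ker_eq_bot, LinearMap.ker_eq_bot']
    intro x hx
    have h1 : ‖w x‖ = 0 := by rw [← hΦn, hx, norm_zero]
    have h2 : w x = 0 := norm_eq_zero.1 h1
    refine (Module.forall_dual_apply_eq_zero_iff ℝ x).1 fun f => ?_
    rw [← hw x f, h2, inner_zero_left]
  let Φ₁ : E ≃ₗ[ℝ] EuclideanSpace ℝ (Fin n) :=
    LinearEquiv.ofInjectiveOfFinrankEq Φ₀ hinj (by rw [hn, finrank_euclideanSpace_fin])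
  refine ⟨Φ₁.toContinuousLinearEquiv, ?_⟩
  have hΦ : ∀ x, Φ₁.toContinuousLinearEquiv x = Φ₀ x := fun x => rfl
  have hle : ∀ g : E ≃ᵃ[ℝ] E, g '' K = K → ∀ x, ‖w (g.linear x)‖ ≤ ‖w x‖ := by
    intro g hg x
    have h1 : inner ℝ (w (g.linear x)) (w (g.linear x)) =
        inner ℝ (w x) (w (g.linear x) ∘ₗ (g.linear : E →ₗ[ℝ] E)) := by
      rw [hw, hw]
      rfl
    have h2 : ‖w (g.linear x) ∘ₗ (g.linear : E →ₗ[ℝ] E)‖ = ‖w (g.linear x)‖ := by
      rw [← sq_eq_sq₀ (norm_nonneg _) (norm_nonneg _), ← real_inner_self_eq_norm_sq,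
        ← real_inner_self_eq_norm_sq, hinner, hinner, core_inv hc hi μ g hg]
    have h3 : ‖w (g.linear x)‖ * ‖w (g.linear x)‖ ≤ ‖w x‖ * ‖w (g.linear x)‖ := by
      have h4 := real_inner_le_norm (w x) (w (g.linear x) ∘ₗ (g.linear : E →ₗ[ℝ] E))
      rw [h2] at h4
      rw [← real_inner_self_eq_norm_mul_norm, h1]
      exact h4
    by_cases h0 : ‖w (g.linear x)‖ = 0
    · rw [h0]
      exact norm_nonneg _
    · exact le_of_mul_le_mul_right h3 (lt_of_le_of_ne (norm_nonneg _) (Ne.symm h0))
  intro g hg x
  rw [hΦ, hΦ, hΦn, hΦn]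
  refine le_antisymm (hle g hg x) ?_
  have h := hle g.symm (symm_image g hg) (g.linear x)
  have e : g.symm.linear (g.linear x) = x := g.linear.symm_apply_apply x
  rwa [e] at h

end

end Pool.Agent.Zk76.Wt
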