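import Mathlib

/-!
Normal form of a skew-symmetric operator in dimension four.
-/

set_option autoImplicit false

open Module

namespace Pool.Agent.Zk76.Wt

variable {V : Type*} [NormedAddCommGroup V] [InnerProductSpace ℝ V]

theorem skew_self (A : V →ₗ[ℝ] V) (hA : ∀ x y, inner ℝ (A x) y = - inner ℝ x (A y)) (x : V) :
    inner ℝ x (A x) = 0 := by
  have h1 := hA x x
  rw [real_inner_comm] at h1
  linarith

variable [FiniteDimensional ℝ V]

theorem skew_vec (A : V →ₗ[ℝ] V) (hA : ∀ x y, inner ℝ (A x) y = - inner ℝ x (A y)) (h0 : A ≠ 0) :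
    ∃ (v : V) (b : ℝ), ‖v‖ = 1 ∧ 0 < b ∧ ‖A v‖ = b ∧ A (A v) = -(b ^ 2 • v) := by
  classical
  let S : V →ₗ[ℝ] V := -(A ∘ₗ A)
  have hSa : ∀ z, S z = -(A (A z)) := fun z => rfl
  have hS : S.IsSymmetric := by
    intro x y
    rw [hSa, hSa, inner_neg_left, inner_neg_right, hA, hA, neg_neg]
  let f := hS.eigenvectorBasis rfl
  let μ := hS.eigenvalues rfl
  have hf : ∀ j, S (f j) = μ j • f j := fun j => hS.apply_eigenvectorBasis rfl j
  have hex : ∃ j, A (f j) ≠ 0 := by
    by_contra hcon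
    push Not at hcon
    apply h0
    exact f.toBasis.ext fun j => by simpa using hcon j
  obtain ⟨j, hj⟩ := hex
  have hμ : μ j = ‖A (f j)‖ ^ 2 := by
    have h1 : inner ℝ (f j) (S (f j)) = μ j := by
      rw [hf, inner_smul_right, real_inner_self_eq_norm_sq, f.norm_eq_one]
      ring
    rw [← h1, hSa, inner_neg_right, ← hA, real_inner_self_eq_norm_sq]
  refine ⟨f j, ‖A (f j)‖, f.norm_eq_one j, norm_pos_iff.2 hj, rfl, ?_⟩
  have h2 := hf j
  rw [hSa, hμ] at h2
  rw [← h2, neg_neg]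

theorem skew_form (hV : finrank ℝ V = 4) (A : V →ₗ[ℝ] V)
    (hA : ∀ x y, inner ℝ (A x) y = - inner ℝ x (A y)) (h0 : A ≠ 0) :
    ∃ (e : OrthonormalBasis (Fin 4) ℝ V) (a b : ℝ), 0 ≤ a ∧ a ≤ b ∧ 0 < b ∧
      A (e 0) = a • e 1 ∧ A (e 1) = -(a • e 0) ∧ A (e 2) = b • e 3 ∧ A (e 3) = -(b • e 2) := by
  obtain ⟨v, b, hv, hb, hAv, hAA⟩ := skew_vec A hA h0
  let w : Fin 4 → V := ![0, 0, v, b⁻¹ • A v]
  have hw2 : w 2 = v := rfl
  have hw3 : w 3 = b⁻¹ • A v := rfl
  have hn3 : ‖b⁻¹ • A v‖ = 1 := by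
    rw [norm_smul, hAv, norm_inv, Real.norm_eq_abs, abs_of_pos hb, inv_mul_cancel₀ hb.ne']
  have hort : Orthonormal ℝ (({2, 3} : Set (Fin 4)).domRestrict w) := by
    constructor
    · rintro ⟨i, hi⟩
      rcases hi with rfl | rfl
      · exact hv
      · exact hn3
    · rintro ⟨i, hi⟩ ⟨j, hj⟩ hij
      have hvA : inner ℝ v (b⁻¹ • A v) = 0 := by
        rw [inner_smul_right, skew_self A hA, mul_zero]
      rcases hi with rfl | rfl <;> rcases hj with rfl | rfl
      · exact absurd rfl hij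
      · exact hvA
      · change inner ℝ (b⁻¹ • A v) v = 0
        rw [real_inner_comm]
        exact hvA
      · exact absurd rfl hij
  obtain ⟨e, he⟩ := hort.exists_orthonormalBasis_extension_of_card_eq (by simp [hV])
  have he2 : e 2 = v := he 2 (by simp)
  have he3 : e 3 = b⁻¹ • A v := he 3 (by simp)
  have hA2 : A (e 2) = b • e 3 := by
    rw [he2, he3, smul_smul, mul_inv_cancel₀ hb.ne', one_smul]
  have hA3 : A (e 3) = -(b • e 2) := by
    rw [he3, he2, map_smul, hAA, smul_neg, smul_smul]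
    congr 2
    field_simp
  have horth : ∀ i j, i ≠ j → inner ℝ (e i) (e j) = 0 := fun i j h => e.orthonormal.2 h
  have hexp : ∀ x, x = inner ℝ (e 0) x • e 0 + inner ℝ (e 1) x • e 1 + inner ℝ (e 2) x • e 2 +
      inner ℝ (e 3) x • e 3 := by
    intro x
    have h := e.sum_repr' x
    rw [Fin.sum_univ_four] at h
    exact h.symm
  have h2x : ∀ x, inner ℝ (e 2) (A x) = -(b * inner ℝ (e 3) x) := by
    intro x
    have h := hA (e 2) x
    rw [hA2, inner_smul_left] at h
    simp only [conj_trivial] at h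
    linarith
  have h3x : ∀ x, inner ℝ (e 3) (A x) = b * inner ℝ (e 2) x := by
    intro x
    have h := hA (e 3) x
    rw [hA3, inner_neg_left, inner_smul_left] at h
    simp only [conj_trivial] at h
    linarith
  have hA0 : A (e 0) = inner ℝ (e 1) (A (e 0)) • e 1 := by
    nth_rewrite 1 [hexp (A (e 0))]
    rw [h2x, h3x, horth 3 0 (by decide), horth 2 0 (by decide), skew_self A hA]
    simp
  have hA1 : A (e 1) = -(inner ℝ (e 1) (A (e 0)) • e 0) := by
    nth_rewrite 1 [hexp (A (e 1))]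
    rw [h2x, h3x, horth 3 1 (by decide), horth 2 1 (by decide), skew_self A hA]
    have h := hA (e 0) (e 1)
    rw [real_inner_comm] at h
    rw [h]
    simp
  -- a version with a nonnegative first weight
  have key : ∃ (e' : OrthonormalBasis (Fin 4) ℝ V) (a : ℝ), 0 ≤ a ∧
      A (e' 0) = a • e' 1 ∧ A (e' 1) = -(a • e' 0) ∧ A (e' 2) = b • e' 3 ∧
      A (e' 3) = -(b • e' 2) := by
    rcases le_total 0 (inner ℝ (e 1) (A (e 0))) with ha | ha
    · exact ⟨e, _, ha, hA0, hA1, hA2, hA3⟩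
    · refine ⟨e.reindex (Equiv.swap 0 1), -inner ℝ (e 1) (A (e 0)), by linarith, ?_⟩
      have q0 : e.reindex (Equiv.swap 0 1) 0 = e 1 := by simp
      have q1 : e.reindex (Equiv.swap 0 1) 1 = e 0 := by simp
      have q2 : e.reindex (Equiv.swap 0 1) 2 = e 2 := by
        rw [OrthonormalBasis.reindex_apply]
        rfl
      have q3 : e.reindex (Equiv.swap 0 1) 3 = e 3 := by
        rw [OrthonormalBasis.reindex_apply]
        rfl
      rw [q0, q1, q2, q3]
      refine ⟨?_, ?_, hA2, hA3⟩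
      · rw [hA1, neg_smul]
      · rw [neg_smul, neg_neg]
        exact hA0
  obtain ⟨e', a, ha, k0, k1, k2, k3⟩ := key
  rcases le_total a b with hab | hab
  · exact ⟨e', a, b, ha, hab, hb, k0, k1, k2, k3⟩
  · let σ : Fin 4 ≃ Fin 4 := finRotate 4 * finRotate 4
    have q0 : e'.reindex σ 0 = e' 2 := by
      rw [OrthonormalBasis.reindex_apply]
      rfl
    have q1 : e'.reindex σ 1 = e' 3 := by
      rw [OrthonormalBasis.reindex_apply]
      rfl
    have q2 : e'.reindex σ 2 = e' 0 := by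
      rw [OrthonormalBasis.reindex_apply]
      rfl
    have q3 : e'.reindex σ 3 = e' 1 := by
      rw [OrthonormalBasis.reindex_apply]
      rfl
    refine ⟨e'.reindex σ, b, a, hb.le, hab, lt_of_lt_of_le hb hab, ?_⟩
    rw [q0, q1, q2, q3]
    exact ⟨k2, k3, k0, k1⟩

end Pool.Agent.Zk76.Wt
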