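import Mathlib
import Pool.Agent.Zk76.Wt.Skew

/-!
Infinitely many orthogonal symmetries of a closed set: a one-parameter group of rotations.
-/

set_option autoImplicit false

open Module Filter Topology Complex

namespace Pool.Agent.Zk76.Wt

variable {V : Type*} [NormedAddCommGroup V] [InnerProductSpace ℝ V]

/-- complex coordinates -/
noncomputable def Lm (e : OrthonormalBasis (Fin 4) ℝ V) (z : ℂ × ℂ) : V :=
  z.1.re • e 0 + z.1.im • e 1 + z.2.re • e 2 + z.2.im • e 3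

noncomputable def Zm (e : OrthonormalBasis (Fin 4) ℝ V) (x : V) : ℂ × ℂ :=
  (⟨inner ℝ (e 0) x, inner ℝ (e 1) x⟩, ⟨inner ℝ (e 2) x, inner ℝ (e 3) x⟩)

noncomputable def rot (e : OrthonormalBasis (Fin 4) ℝ V) (a b t : ℝ) (x : V) : V :=
  Lm e (exp ((a * t : ℝ) * I) * (Zm e x).1, exp ((b * t : ℝ) * I) * (Zm e x).2)

theorem Lm_Zm (e : OrthonormalBasis (Fin 4) ℝ V) (x : V) : Lm e (Zm e x) = x := by
  have h := e.sum_repr' x
  rw [Fin.sum_univ_four] at h
  exact h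

theorem Zm_Lm (e : OrthonormalBasis (Fin 4) ℝ V) (z : ℂ × ℂ) : Zm e (Lm e z) = z := by
  have h : ∀ i j, inner ℝ (e i) (e j) = if i = j then (1 : ℝ) else 0 :=
    fun i j => orthonormal_iff_ite.1 e.orthonormal i j
  obtain ⟨z1, z2⟩ := z
  simp only [Zm, Lm, inner_add_right, inner_smul_right, h]
  refine Prod.ext (Complex.ext ?_ ?_) (Complex.ext ?_ ?_) <;> simp

theorem Lm_add (e : OrthonormalBasis (Fin 4) ℝ V) (z w : ℂ × ℂ) :
    Lm e (z + w) = Lm e z + Lm e w := by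
  simp only [Lm, Prod.fst_add, Prod.snd_add, add_re, add_im, add_smul]
  abel

theorem Lm_smul (e : OrthonormalBasis (Fin 4) ℝ V) (r : ℝ) (z : ℂ × ℂ) :
    Lm e (r • z) = r • Lm e z := by
  simp only [Lm, Prod.smul_fst, Prod.smul_snd, real_smul, re_ofReal_mul, im_ofReal_mul, smul_add,
    smul_smul]

theorem norm_Lm (e : OrthonormalBasis (Fin 4) ℝ V) (z : ℂ × ℂ) :
    ‖Lm e z‖ ^ 2 = ‖z.1‖ ^ 2 + ‖z.2‖ ^ 2 := by
  have h := e.sum_sq_norm_inner_right (Lm e z)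
  rw [← h, Fin.sum_univ_four]
  have h1 := Zm_Lm e z
  have h2 : (Zm e (Lm e z)).1 = z.1 := by rw [h1]
  have h3 : (Zm e (Lm e z)).2 = z.2 := by rw [h1]
  rw [← h2, ← h3]
  simp only [Zm, Complex.sq_norm, Complex.normSq_mk, Real.norm_eq_abs, sq_abs]
  ring

theorem norm_Zm (e : OrthonormalBasis (Fin 4) ℝ V) (x : V) :
    ‖x‖ ^ 2 = ‖(Zm e x).1‖ ^ 2 + ‖(Zm e x).2‖ ^ 2 := by
  rw [← norm_Lm e, Lm_Zm]

theorem Zm_rot (e : OrthonormalBasis (Fin 4) ℝ V) (a b t : ℝ) (x : V) :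
    Zm e (rot e a b t x) =
      (exp ((a * t : ℝ) * I) * (Zm e x).1, exp ((b * t : ℝ) * I) * (Zm e x).2) := by
  rw [rot, Zm_Lm]

theorem norm_rot (e : OrthonormalBasis (Fin 4) ℝ V) (a b t : ℝ) (x : V) :
    ‖rot e a b t x‖ = ‖x‖ := by
  rw [← sq_eq_sq₀ (norm_nonneg _) (norm_nonneg _), norm_Zm e (rot e a b t x), Zm_rot, norm_Zm e x]
  simp only [norm_mul, norm_exp_ofReal_mul_I, one_mul]

theorem rot_add (e : OrthonormalBasis (Fin 4) ℝ V) (a b s t : ℝ) (x : V) :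
    rot e a b (s + t) x = rot e a b s (rot e a b t x) := by
  rw [rot, rot, Zm_rot]
  congr 1
  refine Prod.ext ?_ ?_
  · simp only
    rw [← mul_assoc, ← Complex.exp_add]
    congr 2
    push_cast
    ring
  · simp only
    rw [← mul_assoc, ← Complex.exp_add]
    congr 2
    push_cast
    ring

theorem rot_zero (e : OrthonormalBasis (Fin 4) ℝ V) (a b : ℝ) (x : V) : rot e a b 0 x = x := by
  simp [rot, Lm_Zm]

theorem rot_iter (e : OrthonormalBasis (Fin 4) ℝ V) (a b ε : ℝ) (x : V) (m : ℕ) :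
    (rot e a b ε)^[m] x = rot e a b (m * ε) x := by
  induction m with
  | zero => simp [rot_zero]
  | succ m ih =>
    rw [Function.iterate_succ_apply', ih, ← rot_add]
    congr 1
    push_cast
    ring

theorem exp_bound (θ : ℝ) (h : |θ| ≤ 1) : ‖exp ((θ : ℝ) * I) - 1 - (θ : ℝ) * I‖ ≤ θ ^ 2 := by
  have h1 : ‖((θ : ℝ) : ℂ) * I‖ = |θ| := by simp
  have h2 := Complex.norm_exp_sub_one_sub_id_le (x := (θ : ℝ) * I) (by rw [h1]; exact h)
  rw [h1, sq_abs] at h2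
  exact h2

theorem rot_near (e : OrthonormalBasis (Fin 4) ℝ V) (A : V →ₗ[ℝ] V) {a b ε : ℝ} (ha : 0 ≤ a)
    (hab : a ≤ b) (hε : 0 ≤ ε) (hb : b * ε ≤ 1) (h0 : A (e 0) = a • e 1)
    (h1 : A (e 1) = -(a • e 0)) (h2 : A (e 2) = b • e 3) (h3 : A (e 3) = -(b • e 2)) (x : V) :
    ‖rot e a b ε x - x - ε • A x‖ ≤ (b * ε) ^ 2 * ‖x‖ := by
  have hAx : A x = Lm e ((a : ℂ) * I * (Zm e x).1, (b : ℂ) * I * (Zm e x).2) := by
    nth_rewrite 1 [← Lm_Zm e x]
    simp only [Lm, map_add, map_smul, h0, h1, h2, h3]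
    simp only [mul_re, mul_im, ofReal_re, ofReal_im, I_re, I_im, mul_zero, mul_one, zero_mul,
      sub_zero, zero_sub, add_zero, zero_add, smul_neg, smul_smul, neg_smul]
    simp only [mul_comm a, mul_comm b]
    abel
  have hx : x = Lm e (Zm e x) := (Lm_Zm e x).symm
  have hE : rot e a b ε x - x - ε • A x =
      Lm e ((exp ((a * ε : ℝ) * I) - 1 - (a * ε : ℝ) * I) * (Zm e x).1,
        (exp ((b * ε : ℝ) * I) - 1 - (b * ε : ℝ) * I) * (Zm e x).2) := by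
    rw [hAx, ← Lm_smul]
    nth_rewrite 2 [hx]
    rw [sub_sub, sub_eq_iff_eq_add, ← Lm_add, ← Lm_add, rot]
    congr 1
    refine Prod.ext ?_ ?_
    · simp only [Prod.fst_add, Prod.smul_fst, real_smul]
      push_cast
      ring
    · simp only [Prod.snd_add, Prod.smul_snd, real_smul]
      push_cast
      ring
  have hbe : 0 ≤ b * ε := mul_nonneg (ha.trans hab) hε
  have hae : 0 ≤ a * ε := mul_nonneg ha hε
  have hae' : a * ε ≤ b * ε := mul_le_mul_of_nonneg_right hab hε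
  have k1 := exp_bound (a * ε) (by rw [abs_of_nonneg hae]; linarith)
  have k2 := exp_bound (b * ε) (by rw [abs_of_nonneg hbe]; linarith)
  have k1' : ‖exp ((a * ε : ℝ) * I) - 1 - (a * ε : ℝ) * I‖ ≤ (b * ε) ^ 2 :=
    k1.trans (pow_le_pow_left₀ hae hae' 2)
  rw [← sq_le_sq₀ (norm_nonneg _) (by positivity), hE, norm_Lm, mul_pow ((b * ε) ^ 2) ‖x‖,
    norm_Zm e x, mul_add]
  refine add_le_add ?_ ?_
  · rw [norm_mul, mul_pow]
    exact mul_le_mul_of_nonneg_right (pow_le_pow_left₀ (norm_nonneg _) k1' 2) (sq_nonneg _)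
  · rw [norm_mul, mul_pow]
    exact mul_le_mul_of_nonneg_right (pow_le_pow_left₀ (norm_nonneg _) k2 2) (sq_nonneg _)

/-- telescoping -/
theorem iter_close (g : V ≃ₗᵢ[ℝ] V) (R : V → V) (hR : ∀ x, ‖R x‖ = ‖x‖) {δ : ℝ}
    (hδ : ∀ x, ‖g x - R x‖ ≤ δ * ‖x‖) (m : ℕ) (x : V) :
    ‖g^[m] x - R^[m] x‖ ≤ m * δ * ‖x‖ := by
  have hn : ∀ m : ℕ, ‖R^[m] x‖ = ‖x‖ := by
    intro m
    induction m with
    | zero => rfl
    | succ m ih => rw [Function.iterate_succ_apply', hR, ih]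
  induction m with
  | zero => simp
  | succ m ih =>
    rw [Function.iterate_succ_apply', Function.iterate_succ_apply']
    have h1 : g (g^[m] x) - R (R^[m] x) = g (g^[m] x - R^[m] x) + (g (R^[m] x) - R (R^[m] x)) := by
      rw [map_sub]
      abel
    rw [h1]
    refine (norm_add_le _ _).trans ?_
    rw [g.norm_map]
    have h2 := hδ (R^[m] x)
    rw [hn] at h2
    push_cast
    linarith

end Pool.Agent.Zk76.Wt
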