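import Mathlib
import Pool.Agent.Zk76.Wt.Limit

/-!
Infinitely many orthogonal symmetries of a closed set: a one-parameter group of rotations.
-/

set_option autoImplicit false
set_option linter.unusedSectionVars false
set_option linter.style.haveILetI false
set_option linter.deprecated false

open Module Filter Topology

namespace Pool.Agent.Zk76.Wt

variable {V : Type*} [NormedAddCommGroup V] [InnerProductSpace ℝ V]

/-- an isometry as a continuous linear map -/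
def T (g : V ≃ₗᵢ[ℝ] V) : V →L[ℝ] V := (g.toContinuousLinearEquiv : V →L[ℝ] V)

theorem T_apply (g : V ≃ₗᵢ[ℝ] V) (x : V) : T g x = g x := rfl

theorem T_norm (g : V ≃ₗᵢ[ℝ] V) : ‖T g‖ ≤ 1 :=
  ContinuousLinearMap.opNorm_le_bound _ zero_le_one fun x => by
    rw [T_apply, g.norm_map, one_mul]

theorem T_inj : Function.Injective (T (V := V)) := by
  intro g h hgh
  ext x
  rw [← T_apply, ← T_apply, hgh]

variable [FiniteDimensional ℝ V]

theorem exists_seq (H : Set (V ≃ₗᵢ[ℝ] V)) (hinf : H.Infinite)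
    (hmul : ∀ g ∈ H, ∀ h ∈ H, h.symm.trans g ∈ H) :
    ∃ g : ℕ → (V ≃ₗᵢ[ℝ] V), (∀ n, g n ∈ H) ∧ (∀ n, T (g n) ≠ 1) ∧
      Tendsto (fun n => ‖T (g n) - 1‖) atTop (𝓝 0) := by
  haveI : ProperSpace (V →L[ℝ] V) := FiniteDimensional.proper_real _
  let h : ℕ → H := hinf.natEmbedding
  have hinj : Function.Injective h := (hinf.natEmbedding).injective
  obtain ⟨B, -, φ, hφ, hB⟩ := (isCompact_closedBall (0 : V →L[ℝ] V) 1).tendsto_subseq
    (x := fun n => T (h n : V ≃ₗᵢ[ℝ] V)) (fun n => by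
      rw [mem_closedBall_zero_iff]
      exact T_norm _)
  refine ⟨fun n => (h (φ n) : V ≃ₗᵢ[ℝ] V).symm.trans (h (φ (n + 1)) : V ≃ₗᵢ[ℝ] V),
    fun n => hmul _ (h (φ (n + 1))).2 _ (h (φ n)).2, ?_, ?_⟩
  · intro n hn
    have h1 : (h (φ n) : V ≃ₗᵢ[ℝ] V) = (h (φ (n + 1)) : V ≃ₗᵢ[ℝ] V) := by
      ext x
      have h2 := congrArg (fun S : V →L[ℝ] V => S ((h (φ n) : V ≃ₗᵢ[ℝ] V) x)) hn
      simp only [T_apply, LinearIsometryEquiv.trans_apply, LinearIsometryEquiv.symm_apply_apply,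
        ContinuousLinearMap.one_apply] at h2
      exact h2.symm
    have h3 : φ n = φ (n + 1) := hinj (Subtype.ext h1)
    have h4 := hφ (Nat.lt_succ_self n)
    simp only [Nat.succ_eq_add_one] at h4
    omega
  · have h1 : Tendsto (fun n => T (h (φ (n + 1)) : V ≃ₗᵢ[ℝ] V) - T (h (φ n) : V ≃ₗᵢ[ℝ] V))
        atTop (𝓝 (B - B)) := by
      refine Tendsto.sub ?_ hB
      exact hB.comp (tendsto_add_atTop_nat 1)
    rw [sub_self] at h1
    have h2 := h1.norm
    rw [norm_zero] at h2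
    refine squeeze_zero (fun _ => norm_nonneg _) (fun n => ?_) h2
    refine ContinuousLinearMap.opNorm_le_bound _ (norm_nonneg _) fun x => ?_
    have h3 : (T ((h (φ n) : V ≃ₗᵢ[ℝ] V).symm.trans (h (φ (n + 1)) : V ≃ₗᵢ[ℝ] V)) - 1) x =
        (T (h (φ (n + 1)) : V ≃ₗᵢ[ℝ] V) - T (h (φ n) : V ≃ₗᵢ[ℝ] V))
          ((h (φ n) : V ≃ₗᵢ[ℝ] V).symm x) := by
      simp only [ContinuousLinearMap.sub_apply, T_apply, LinearIsometryEquiv.trans_apply,
        LinearIsometryEquiv.apply_symm_apply, ContinuousLinearMap.one_apply]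
    rw [h3]
    refine (ContinuousLinearMap.le_opNorm _ _).trans_eq ?_
    rw [LinearIsometryEquiv.norm_map]

theorem exists_gen (g : ℕ → (V ≃ₗᵢ[ℝ] V)) (hne : ∀ n, T (g n) ≠ 1)
    (h0 : Tendsto (fun n => ‖T (g n) - 1‖) atTop (𝓝 0)) :
    ∃ (A : V →L[ℝ] V) (φ : ℕ → ℕ), StrictMono φ ∧ ‖A‖ = 1 ∧
      Tendsto (fun n => ‖T (g (φ n)) - 1‖⁻¹ • (T (g (φ n)) - 1)) atTop (𝓝 A) ∧
      ∀ x y, inner ℝ (A x) y = -inner ℝ x (A y) := by
  haveI : ProperSpace (V →L[ℝ] V) := FiniteDimensional.proper_real _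
  have hpos : ∀ n, 0 < ‖T (g n) - 1‖ := fun n => norm_pos_iff.2 (sub_ne_zero.2 (hne n))
  have hn1 : ∀ n, ‖‖T (g n) - 1‖⁻¹ • (T (g n) - 1)‖ = 1 := by
    intro n
    rw [norm_smul, norm_inv, norm_norm, inv_mul_cancel₀ (hpos n).ne']
  obtain ⟨A, -, φ, hφ, hA⟩ := (isCompact_closedBall (0 : V →L[ℝ] V) 1).tendsto_subseq
    (x := fun n => ‖T (g n) - 1‖⁻¹ • (T (g n) - 1)) (fun n => by
      rw [mem_closedBall_zero_iff, hn1])
  refine ⟨A, φ, hφ, ?_, hA, ?_⟩
  · have h1 := hA.norm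
    have h2 : Tendsto (fun _ : ℕ => (1 : ℝ)) atTop (𝓝 ‖A‖) := by
      refine h1.congr fun n => ?_
      exact hn1 (φ n)
    exact tendsto_nhds_unique h2 tendsto_const_nhds |>.symm ▸ rfl
  · intro x y
    have hAx : ∀ x, Tendsto (fun n => ‖T (g (φ n)) - 1‖⁻¹ • ((T (g (φ n)) - 1) x)) atTop
        (𝓝 (A x)) := fun x => by
      have := ((ContinuousLinearMap.apply ℝ V x).continuous.tendsto A).comp hA
      exact this
    have h1 : Tendsto (fun n => inner ℝ (‖T (g (φ n)) - 1‖⁻¹ • ((T (g (φ n)) - 1) x)) y +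
        inner ℝ x (‖T (g (φ n)) - 1‖⁻¹ • ((T (g (φ n)) - 1) y)) +
        ‖T (g (φ n)) - 1‖ * inner ℝ (‖T (g (φ n)) - 1‖⁻¹ • ((T (g (φ n)) - 1) x))
          (‖T (g (φ n)) - 1‖⁻¹ • ((T (g (φ n)) - 1) y))) atTop
        (𝓝 (inner ℝ (A x) y + inner ℝ x (A y) + 0 * inner ℝ (A x) (A y))) := by
      refine Tendsto.add (Tendsto.add ?_ ?_) (Tendsto.mul ?_ ?_)
      · exact (hAx x).inner tendsto_const_nhds
      · exact tendsto_const_nhds.inner (hAx y)
      · exact h0.comp hφ.tendsto_atTop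
      · exact (hAx x).inner (hAx y)
    have h2 : ∀ n, inner ℝ (‖T (g (φ n)) - 1‖⁻¹ • ((T (g (φ n)) - 1) x)) y +
        inner ℝ x (‖T (g (φ n)) - 1‖⁻¹ • ((T (g (φ n)) - 1) y)) +
        ‖T (g (φ n)) - 1‖ * inner ℝ (‖T (g (φ n)) - 1‖⁻¹ • ((T (g (φ n)) - 1) x))
          (‖T (g (φ n)) - 1‖⁻¹ • ((T (g (φ n)) - 1) y)) = 0 := by
      intro n
      have hp := hpos (φ n)
      have h3 : inner ℝ (g (φ n) x) (g (φ n) y) = inner ℝ x y := (g (φ n)).inner_map_map x y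
      have h4 : g (φ n) x = x + (T (g (φ n)) - 1) x := by
        simp [T_apply]
      have h5 : g (φ n) y = y + (T (g (φ n)) - 1) y := by
        simp [T_apply]
      rw [h4, h5, inner_add_left, inner_add_right, inner_add_right] at h3
      simp only [inner_smul_left, inner_smul_right, conj_trivial]
      set ε := ‖T (g (φ n)) - 1‖
      have h6 : inner ℝ ((T (g (φ n)) - 1) x) y + inner ℝ x ((T (g (φ n)) - 1) y) +
          inner ℝ ((T (g (φ n)) - 1) x) ((T (g (φ n)) - 1) y) = 0 := by linarith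
      have h7 : ε⁻¹ * inner ℝ ((T (g (φ n)) - 1) x) y + ε⁻¹ * inner ℝ x ((T (g (φ n)) - 1) y) +
          ε * (ε⁻¹ * (ε⁻¹ * inner ℝ ((T (g (φ n)) - 1) x) ((T (g (φ n)) - 1) y))) =
          ε⁻¹ * (inner ℝ ((T (g (φ n)) - 1) x) y + inner ℝ x ((T (g (φ n)) - 1) y) +
          inner ℝ ((T (g (φ n)) - 1) x) ((T (g (φ n)) - 1) y)) := by
        field_simp
      rw [h6, mul_zero] at h7
      linarith
    have h3 : Tendsto (fun _ : ℕ => (0 : ℝ)) atTop
        (𝓝 (inner ℝ (A x) y + inner ℝ x (A y) + 0 * inner ℝ (A x) (A y))) :=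
      h1.congr h2
    have h4 := tendsto_nhds_unique h3 tendsto_const_nhds
    linarith

theorem iter_norm_sub (g : V ≃ₗᵢ[ℝ] V) (m : ℕ) (u v : V) : ‖g^[m] u - g^[m] v‖ = ‖u - v‖ := by
  induction m with
  | zero => rfl
  | succ m ih =>
    rw [Function.iterate_succ_apply', Function.iterate_succ_apply', ← map_sub, g.norm_map, ih]

theorem rot_cont (e : OrthonormalBasis (Fin 4) ℝ V) (a b : ℝ) (x : V) :
    Continuous fun t => rot e a b t x := by
  unfold rot Lm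
  fun_prop

/-- the one-parameter group -/
theorem limit_rot (hV : finrank ℝ V = 4) {K : Set V} (hK : IsClosed K)
    (H : Set (V ≃ₗᵢ[ℝ] V)) (hinf : H.Infinite) (hmul : ∀ g ∈ H, ∀ h ∈ H, h.symm.trans g ∈ H)
    (hH : ∀ g ∈ H, ∀ x ∈ K, g x ∈ K ∧ g.symm x ∈ K) :
    ∃ (e : OrthonormalBasis (Fin 4) ℝ V) (a b : ℝ), 0 ≤ a ∧ a ≤ b ∧ 0 < b ∧
      ∀ t, ∀ x ∈ K, rot e a b t x ∈ K := by
  obtain ⟨g₀, hg₀, hne₀, hlim₀⟩ := exists_seq H hinf hmul
  obtain ⟨A, φ, hφ, hA1, hA, hskew⟩ := exists_gen g₀ hne₀ hlim₀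
  have hA0 : (A : V →ₗ[ℝ] V) ≠ 0 := by
    intro h
    have h1 : A = 0 := by
      ext x
      exact congrArg (fun S : V →ₗ[ℝ] V => S x) h
    rw [h1, norm_zero] at hA1
    exact zero_ne_one hA1
  obtain ⟨e, a, b, ha, hab, hb, h0, h1, h2, h3⟩ := skew_form hV (A : V →ₗ[ℝ] V) hskew hA0
  refine ⟨e, a, b, ha, hab, hb, ?_⟩
  let g : ℕ → (V ≃ₗᵢ[ℝ] V) := fun n => g₀ (φ n)
  let ε : ℕ → ℝ := fun n => ‖T (g n) - 1‖
  have hε0 : Tendsto ε atTop (𝓝 0) := hlim₀.comp hφ.tendsto_atTop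
  have hεp : ∀ n, 0 < ε n := fun n => norm_pos_iff.2 (sub_ne_zero.2 (hne₀ _))
  let η : ℕ → ℝ := fun n => ‖(ε n)⁻¹ • (T (g n) - 1) - A‖
  have hη0 : Tendsto η atTop (𝓝 0) := by
    have := (hA.sub_const A).norm
    rwa [sub_self, norm_zero] at this
  have hsmall : ∀ᶠ n in atTop, b * ε n ≤ 1 := by
    have : Tendsto (fun n => b * ε n) atTop (𝓝 (b * 0)) := hε0.const_mul b
    rw [mul_zero] at this
    filter_upwards [this.eventually (gt_mem_nhds zero_lt_one)] with n hn using hn.le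
  have hclose : ∀ᶠ n in atTop, ∀ x, ‖g n x - rot e a b (ε n) x‖ ≤
      (ε n * η n + (b * ε n) ^ 2) * ‖x‖ := by
    filter_upwards [hsmall] with n hn x
    have k1 := rot_near e (A : V →ₗ[ℝ] V) ha hab (hεp n).le hn h0 h1 h2 h3 x
    have k2 : ‖g n x - x - ε n • A x‖ ≤ ε n * η n * ‖x‖ := by
      have k3 : g n x - x - ε n • A x = ε n • (((ε n)⁻¹ • (T (g n) - 1) - A) x) := by
        simp only [ContinuousLinearMap.sub_apply, ContinuousLinearMap.smul_apply, T_apply,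
          ContinuousLinearMap.one_apply, smul_sub, smul_smul]
        rw [mul_inv_cancel₀ (hεp n).ne', one_smul, one_smul]
      rw [k3, norm_smul, Real.norm_eq_abs, abs_of_pos (hεp n), mul_assoc]
      exact mul_le_mul_of_nonneg_left (ContinuousLinearMap.le_opNorm _ _) (hεp n).le
    have k4 : g n x - rot e a b (ε n) x = (g n x - x - ε n • A x) -
        (rot e a b (ε n) x - x - ε n • (A : V →ₗ[ℝ] V) x) := by
      simp only [ContinuousLinearMap.coe_coe]
      abel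
    rw [k4, add_mul]
    exact (norm_sub_le _ _).trans (add_le_add k2 k1)
  -- forward times
  have hiterK : ∀ n m, ∀ x ∈ K, (g n)^[m] x ∈ K ∧ (g n).symm^[m] x ∈ K := by
    intro n m x hx
    induction m with
    | zero => exact ⟨hx, hx⟩
    | succ m ih =>
      rw [Function.iterate_succ_apply', Function.iterate_succ_apply']
      exact ⟨(hH _ (hg₀ _) _ ih.1).1, (hH _ (hg₀ _) _ ih.2).2⟩
  have hm : ∀ s : ℝ, 0 ≤ s → Tendsto (fun n => (⌊s / ε n⌋₊ : ℝ) * ε n) atTop (𝓝 s) := by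
    intro s hs
    have l1 : Tendsto (fun n => s - ε n) atTop (𝓝 s) := by
      simpa using (tendsto_const_nhds (x := s)).sub hε0
    refine tendsto_of_tendsto_of_tendsto_of_le_of_le l1 tendsto_const_nhds (fun n => ?_)
      (fun n => ?_)
    · have l2 := Nat.lt_floor_add_one (s / ε n)
      rw [div_lt_iff₀ (hεp n)] at l2
      simp only
      linarith
    · have l2 := Nat.floor_le (div_nonneg hs (hεp n).le)
      rwa [le_div_iff₀ (hεp n)] at l2
  have hd : ∀ s : ℝ, 0 ≤ s → ∀ x : V, Tendsto (fun n => (⌊s / ε n⌋₊ : ℝ) *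
      (ε n * η n + (b * ε n) ^ 2) * ‖x‖) atTop (𝓝 0) := by
    intro s hs x
    have l1 : Tendsto (fun n => ((⌊s / ε n⌋₊ : ℝ) * ε n) * (η n + b ^ 2 * ε n) * ‖x‖) atTop
        (𝓝 (s * (0 + b ^ 2 * 0) * ‖x‖)) :=
      (((hm s hs).mul (hη0.add (hε0.const_mul _)))).mul_const _
    have l2 : s * (0 + b ^ 2 * 0) * ‖x‖ = 0 := by ring
    rw [l2] at l1
    refine l1.congr fun n => ?_
    ring
  intro t x hx
  rcases le_total 0 t with ht | ht
  · have l1 : Tendsto (fun n => rot e a b ((⌊t / ε n⌋₊ : ℝ) * ε n) x) atTop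
        (𝓝 (rot e a b t x)) := ((rot_cont e a b x).tendsto t).comp (hm t ht)
    have l2 : Tendsto (fun n => (g n)^[⌊t / ε n⌋₊] x - rot e a b ((⌊t / ε n⌋₊ : ℝ) * ε n) x)
        atTop (𝓝 0) := by
      refine squeeze_zero_norm' ?_ (hd t ht x)
      filter_upwards [hclose] with n hn
      have l3 := iter_close (g n) (rot e a b (ε n)) (norm_rot e a b _) hn ⌊t / ε n⌋₊ x
      rwa [rot_iter] at l3
    have l4 := l2.add l1
    simp only [sub_add_cancel, zero_add] at l4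
    exact hK.mem_of_tendsto l4 (Eventually.of_forall fun n => (hiterK n _ x hx).1)
  · obtain ⟨s, hs⟩ : ∃ s, s = -t := ⟨_, rfl⟩
    have hs0 : 0 ≤ s := by linarith
    have hts : t = -s := by linarith
    have l1 : Tendsto (fun n => rot e a b (-((⌊s / ε n⌋₊ : ℝ) * ε n)) x) atTop
        (𝓝 (rot e a b t x)) := by
      rw [hts]
      exact ((rot_cont e a b x).tendsto (-s)).comp (hm s hs0).neg
    have l2 : Tendsto (fun n => (g n).symm^[⌊s / ε n⌋₊] x -
        rot e a b (-((⌊s / ε n⌋₊ : ℝ) * ε n)) x) atTop (𝓝 0) := by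
      refine squeeze_zero_norm' ?_ (hd s hs0 x)
      filter_upwards [hclose] with n hn
      set m := ⌊s / ε n⌋₊ with hmdef
      set y := rot e a b (-((m : ℝ) * ε n)) x with hy
      have l3 := iter_close (g n) (rot e a b (ε n)) (norm_rot e a b _) hn m y
      rw [rot_iter, hy, ← rot_add, add_neg_cancel, rot_zero, norm_rot, ← hy] at l3
      have l4 : ‖(g n).symm^[m] x - y‖ = ‖(g n)^[m] y - x‖ := by
        have l5 := iter_norm_sub (g n) m ((g n).symm^[m] x) y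
        have l6 : (g n)^[m] ((g n).symm^[m] x) = x :=
          (Function.LeftInverse.iterate (fun z => (g n).apply_symm_apply z) m) x
        rw [l6] at l5
        rw [← l5, norm_sub_rev]
      rw [l4]
      exact l3
    have l4 := l2.add l1
    simp only [sub_add_cancel, zero_add] at l4
    exact hK.mem_of_tendsto l4 (Eventually.of_forall fun n => (hiterK n _ x hx).2)

end Pool.Agent.Zk76.Wt
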