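import Mathlib
import Pool.Agent.Zk76.Wt.Frame
import Pool.Agent.Zk76.Wt.Limit2

/-!
A convex body in a four-dimensional space with infinitely many affine symmetries is invariant under
a weighted circle action (or the closure of a one-parameter group) in suitable complex coordinates.
-/

set_option autoImplicit false
set_option linter.style.haveILetI false

open Module Filter Topology Set MeasureTheory

namespace Pool.Agent.Zk76.Wt

/-- complex coordinates as a linear equivalence -/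
noncomputable def Le {V : Type*} [NormedAddCommGroup V] [InnerProductSpace ℝ V]
    (e : OrthonormalBasis (Fin 4) ℝ V) : (ℂ × ℂ) ≃ₗ[ℝ] V where
  toFun := Lm e
  map_add' := Lm_add e
  map_smul' r z := Lm_smul e r z
  invFun := Zm e
  left_inv := Zm_Lm e
  right_inv := Lm_Zm e

theorem Le_apply {V : Type*} [NormedAddCommGroup V] [InnerProductSpace ℝ V]
    (e : OrthonormalBasis (Fin 4) ℝ V) (z : ℂ × ℂ) : Le e z = Lm e z := rfl

section

variable {E : Type*} [NormedAddCommGroup E] [NormedSpace ℝ E]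

/-- the symmetries of `K` -/
abbrev Sy (K : Set E) : Set (E ≃ᵃ[ℝ] E) := {g | g '' K = K}

theorem Sy.symm {K : Set E} {g : E ≃ᵃ[ℝ] E} (hg : g ∈ Sy K) : g.symm ∈ Sy K := by
  have hg' : g '' K = K := hg
  change g.symm '' K = K
  nth_rewrite 1 [← hg']
  rw [image_image]
  simp

theorem Sy.trans {K : Set E} {g h : E ≃ᵃ[ℝ] E} (hg : g ∈ Sy K) (hh : h ∈ Sy K) :
    g.trans h ∈ Sy K := by
  have hg' : g '' K = K := hg
  have hh' : h '' K = K := hh
  change (g.trans h) '' K = K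
  rw [AffineEquiv.coe_trans, image_comp, hg', hh']

theorem exists_weights (hd : finrank ℝ E = 4) {K : Set E} (hc : IsCompact K)
    (hi : (interior K).Nonempty) (hinf : {g : E ≃ᵃ[ℝ] E | g '' K = K}.Infinite) :
    ∃ k : ℝ, 0 ≤ k ∧ k ≤ 1 ∧ ∃ (L : (ℂ × ℂ) ≃L[ℝ] E) (c : E), ∀ t : ℝ, ∀ z : ℂ × ℂ,
      c + L z ∈ K →
        c + L (Complex.exp (k * t * Complex.I) * z.1, Complex.exp (t * Complex.I) * z.2) ∈ K := by
  haveI : FiniteDimensional ℝ E := FiniteDimensional.of_finrank_pos (by omega)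
  borelize E
  let μ : Measure E := Measure.addHaar
  let c : E := cent K μ
  have hfix : ∀ g ∈ Sy K, g c = c := fun g hg => cent_fixed hc hi g hg μ
  obtain ⟨Φ, hΦ⟩ := exists_frame hc hi μ hd
  have hlin : ∀ g ∈ Sy K, ∀ y, g (c + y) = c + g.linear y := by
    intro g hg y
    have h1 := g.map_vadd c y
    rw [vadd_eq_add, vadd_eq_add, hfix g hg] at h1
    rw [add_comm, h1, add_comm]
  let S : Sy K → (EuclideanSpace ℝ (Fin 4) ≃ₗᵢ[ℝ] EuclideanSpace ℝ (Fin 4)) := fun g =>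
    { toLinearEquiv := (Φ.symm.toLinearEquiv.trans (g : E ≃ᵃ[ℝ] E).linear).trans Φ.toLinearEquiv
      norm_map' := fun x => by
        change ‖Φ ((g : E ≃ᵃ[ℝ] E).linear (Φ.symm x))‖ = ‖x‖
        rw [hΦ _ g.2, ContinuousLinearEquiv.apply_symm_apply] }
  have hS : ∀ (g : Sy K) x, S g x = Φ ((g : E ≃ᵃ[ℝ] E).linear (Φ.symm x)) := fun g x => rfl
  have hSs : ∀ (g : Sy K) x, (S g).symm x = Φ ((g : E ≃ᵃ[ℝ] E).linear.symm (Φ.symm x)) :=
    fun g x => rfl
  have hSinj : Function.Injective S := by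
    intro g h hgh
    apply Subtype.ext
    have h1 : ∀ y, (g : E ≃ᵃ[ℝ] E).linear y = (h : E ≃ᵃ[ℝ] E).linear y := by
      intro y
      have h2 : S g (Φ y) = S h (Φ y) := by rw [hgh]
      rw [hS, hS, ContinuousLinearEquiv.symm_apply_apply] at h2
      exact Φ.injective h2
    ext y
    have h3 : y = c + (y - c) := by abel
    rw [h3, hlin _ g.2, hlin _ h.2, h1]
  let H : Set (EuclideanSpace ℝ (Fin 4) ≃ₗᵢ[ℝ] EuclideanSpace ℝ (Fin 4)) := range S
  have hHinf : H.Infinite := by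
    haveI : Infinite (Sy K) := hinf.to_subtype
    exact infinite_range_of_injective hSinj
  let K' : Set (EuclideanSpace ℝ (Fin 4)) := {v | c + Φ.symm v ∈ K}
  have hK' : IsClosed K' := hc.isClosed.preimage (by fun_prop)
  have hmul : ∀ g ∈ H, ∀ h ∈ H, h.symm.trans g ∈ H := by
    rintro _ ⟨g, rfl⟩ _ ⟨h, rfl⟩
    refine ⟨⟨(h : E ≃ᵃ[ℝ] E).symm.trans (g : E ≃ᵃ[ℝ] E), Sy.trans (Sy.symm h.2) g.2⟩, ?_⟩
    ext x : 1
    rw [hS, LinearIsometryEquiv.trans_apply, hSs, hS, ContinuousLinearEquiv.symm_apply_apply]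
    rfl
  have hmem : ∀ g : Sy K, ∀ x ∈ K', S g x ∈ K' := by
    intro g x hx
    change c + Φ.symm (S g x) ∈ K
    have hx' : c + Φ.symm x ∈ K := hx
    rw [hS, ContinuousLinearEquiv.symm_apply_apply, ← hlin _ g.2]
    have h1 : (g : E ≃ᵃ[ℝ] E) '' K = K := g.2
    exact h1.subset (mem_image_of_mem _ hx')
  have hH : ∀ g ∈ H, ∀ x ∈ K', g x ∈ K' ∧ g.symm x ∈ K' := by
    rintro _ ⟨g, rfl⟩ x hx
    refine ⟨hmem g x hx, ?_⟩
    have h1 : (S g).symm x = S ⟨(g : E ≃ᵃ[ℝ] E).symm, Sy.symm g.2⟩ x := by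
      rw [hSs, hS]
      rfl
    rw [h1]
    exact hmem _ x hx
  obtain ⟨e, a, b, ha, hab, hb, hrot⟩ := limit_rot (finrank_euclideanSpace_fin) hK' H hHinf hmul hH
  refine ⟨a / b, div_nonneg ha hb.le, (div_le_one hb).2 hab,
    ((Le e).toContinuousLinearEquiv).trans Φ.symm, c, ?_⟩
  intro t z hz
  have hL : ∀ z, (((Le e).toContinuousLinearEquiv).trans Φ.symm) z = Φ.symm (Lm e z) :=
    fun z => rfl
  rw [hL] at hz ⊢
  have h1 := hrot (t / b) (Lm e z) hz
  rw [rot, Zm_Lm] at h1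
  have h2 : ((a * (t / b) : ℝ) : ℂ) * Complex.I = ((a / b : ℝ) : ℂ) * t * Complex.I := by
    push_cast
    ring
  have h3 : ((b * (t / b) : ℝ) : ℂ) = t := by
    rw [mul_div_cancel₀ t hb.ne']
  rw [h2, h3] at h1
  exact h1

end

end Pool.Agent.Zk76.Wt
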