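import Mathlib
import Pool.Agent.H318R3.St.Haus

/-!
Covering by translates of the interior is an open condition; symmetries close to the identity.
-/

set_option autoImplicit false
set_option linter.style.haveILetI false
set_option linter.unusedSectionVars false
set_option linter.deprecated false

open Module Set Metric Filter Topology

namespace Pool.Agent.Zk76.Wt

/-- `K` is covered by at most `m` translates of its interior. -/
def Cov {E : Type*} [NormedAddCommGroup E] (m : ℕ) (K : Set E) : Prop :=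
  ∃ S : Finset E, S.card ≤ m ∧ K ⊆ ⋃ t ∈ S, (fun x => t + x) '' interior K

section

variable {V : Type*} [NormedAddCommGroup V] [InnerProductSpace ℝ V] [FiniteDimensional ℝ V]

theorem cov_near {m : ℕ} {K : Set V} (hc : IsCompact K) (hne : K.Nonempty) (h : Cov m K) :
    ∃ δ : ℝ, 0 < δ ∧ ∀ K' : Set V, IsCompact K' → K'.Nonempty → Convex ℝ K' →
      hausdorffDist K' K < δ → Cov m K' := by
  obtain ⟨S, hS, hcov⟩ := h
  obtain ⟨δ, hδ, hL⟩ := lebesgue_number_lemma_of_metric (s := K) (ι := S)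
    (c := fun t => {x | x - (t : V) ∈ interior K}) hc
    (fun t => isOpen_interior.preimage (by fun_prop)) (fun x hx => by
      obtain ⟨t, ht⟩ := mem_iUnion.1 (hcov hx)
      obtain ⟨htS, y, hy, hyx⟩ := mem_iUnion.1 ht
      refine mem_iUnion.2 ⟨⟨t, htS⟩, ?_⟩
      change x - t ∈ interior K
      rw [← hyx, add_sub_cancel_left]
      exact hy)
  refine ⟨δ / 4, by positivity, fun K' hc' hne' hK' hd => ⟨S, hS, fun y hy => ?_⟩⟩
  obtain ⟨x, hx, hxy⟩ := exists_dist_lt_of_hausdorffDist_lt hy hd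
    (Pool.Agent.H318R3.St.haus_fin hne' hne hc' hc)
  obtain ⟨⟨t, ht⟩, hball⟩ := hL x hx
  refine mem_iUnion.2 ⟨t, mem_iUnion.2 ⟨ht, y - t, ?_, by simp⟩⟩
  rw [mem_interior]
  refine ⟨ball (y - t) (δ / 4), fun z hz => ?_, isOpen_ball, mem_ball_self (by positivity)⟩
  refine Pool.Agent.H318R3.St.mem_of_ball hne' hne hc' hc hK' (r := δ / 4) (by positivity) ?_ hd
  intro u hu
  have h1 : u + t ∈ ball x δ := by
    rw [mem_ball]
    rw [mem_closedBall] at hu
    rw [mem_ball] at hz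
    have e1 : dist (u + t) x ≤ dist (u + t) (z + t) + dist (z + t) y + dist y x :=
      dist_triangle4 _ _ _ _
    have e2 : dist (u + t) (z + t) = dist u z := by simp
    have e3 : dist (z + t) y = dist z (y - t) := by
      rw [dist_eq_norm, dist_eq_norm]
      congr 1
      abel
    rw [e2, e3] at e1
    linarith
  have h2 := hball h1
  change u + t - t ∈ interior K at h2
  rw [add_sub_cancel_right] at h2
  exact interior_subset h2

end

section

variable {V : Type*} [NormedAddCommGroup V] [NormedSpace ℝ V] [FiniteDimensional ℝ V]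

/-- an affine map as a pair -/
noncomputable def pr (g : V ≃ᵃ[ℝ] V) : (V →L[ℝ] V) × V :=
  (LinearMap.toContinuousLinearMap (g.linear : V →ₗ[ℝ] V), g 0)

theorem pr_fst (g : V ≃ᵃ[ℝ] V) (x : V) : (pr g).1 x = g.linear x := rfl

theorem pr_act (g : V ≃ᵃ[ℝ] V) (x : V) : g x = (pr g).1 x + (pr g).2 := by
  have h := g.map_vadd (0 : V) x
  simpa [pr] using h

theorem lin_sub (g : V ≃ᵃ[ℝ] V) (x y : V) : (pr g).1 (x - y) = g x - g y := by
  rw [pr_act, pr_act, map_sub]
  abel

theorem pr_inj : Function.Injective (pr (V := V)) := by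
  intro g h hgh
  ext x
  rw [pr_act, pr_act, hgh]

/-- distance from the identity -/
noncomputable def Nn (g : V ≃ᵃ[ℝ] V) : ℝ := ‖pr g - (1, 0)‖

theorem Nn_eq (g : V ≃ᵃ[ℝ] V) : Nn g = max ‖(pr g).1 - 1‖ ‖(pr g).2‖ := by
  rw [Nn, Prod.norm_def]
  simp

theorem Nn_nonneg (g : V ≃ᵃ[ℝ] V) : 0 ≤ Nn g := norm_nonneg _

theorem pr_refl : pr (AffineEquiv.refl ℝ V) = (1, 0) := by
  refine Prod.ext ?_ ?_
  · ext x
    simp [pr]
  · simp [pr]

theorem Nn_pos {g : V ≃ᵃ[ℝ] V} (hg : g ≠ AffineEquiv.refl ℝ V) : 0 < Nn g := by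
  refine norm_pos_iff.2 (sub_ne_zero.2 fun h => hg ?_)
  exact pr_inj (h.trans pr_refl.symm)

/-- a bound for the symmetries -/
theorem pr_bound {K : Set V} {q : V} {r R : ℝ} (hr : 0 < r) (h1 : closedBall q r ⊆ K)
    (h2 : K ⊆ closedBall 0 R) (g : V ≃ᵃ[ℝ] V) (hg : g '' K = K) :
    ‖(pr g).1‖ ≤ 2 * R / r ∧ ‖(pr g).2‖ ≤ R + 2 * R / r * ‖q‖ := by
  have hq : q ∈ K := h1 (mem_closedBall_self hr.le)
  have hgK : ∀ x ∈ K, ‖g x‖ ≤ R := fun x hx =>
    mem_closedBall_zero_iff.1 (h2 (hg.subset (mem_image_of_mem _ hx)))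
  have hR : 0 ≤ R := (norm_nonneg _).trans (hgK q hq)
  have hA : ‖(pr g).1‖ ≤ 2 * R / r := by
    refine ContinuousLinearMap.opNorm_le_bound _ (by positivity) fun u => ?_
    by_cases hu : u = 0
    · simp [hu]
    have hu' : 0 < ‖u‖ := norm_pos_iff.2 hu
    have hm : q + (r / ‖u‖) • u ∈ K := by
      apply h1
      rw [mem_closedBall, dist_eq_norm, add_sub_cancel_left, norm_smul, Real.norm_eq_abs,
        abs_of_pos (by positivity), div_mul_cancel₀ _ hu'.ne']
    have h3 := lin_sub g (q + (r / ‖u‖) • u) q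
    rw [add_sub_cancel_left, map_smul] at h3
    have h4 : r / ‖u‖ * ‖(pr g).1 u‖ ≤ 2 * R := by
      have h5 : ‖(r / ‖u‖) • (pr g).1 u‖ ≤ 2 * R := by
        rw [h3]
        refine (norm_sub_le _ _).trans ?_
        have := hgK _ hm
        have := hgK _ hq
        linarith
      rwa [norm_smul, Real.norm_eq_abs, abs_of_pos (by positivity)] at h5
    calc ‖(pr g).1 u‖ = (r / ‖u‖ * ‖(pr g).1 u‖) * (‖u‖ / r) := by field_simp
      _ ≤ 2 * R * (‖u‖ / r) := by gcongr
      _ = 2 * R / r * ‖u‖ := by ring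
  refine ⟨hA, ?_⟩
  have h3 : (pr g).2 = g q - (pr g).1 q := by
    rw [pr_act g q]
    abel
  rw [h3]
  refine (norm_sub_le _ _).trans (add_le_add (hgK q hq) ?_)
  refine ((pr g).1.le_opNorm q).trans ?_
  gcongr

/-- doubling -/
theorem Nn_double (g : V ≃ᵃ[ℝ] V) (h : Nn g ≤ 1 / 2) : 3 / 2 * Nn g ≤ Nn (g.trans g) := by
  have e : pr (g.trans g) - (1, 0) = (2 : ℝ) • (pr g - (1, 0)) +
      (((pr g).1 - 1) ∘L ((pr g).1 - 1), ((pr g).1 - 1) (pr g).2) := by
    refine Prod.ext ?_ ?_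
    · ext x
      simp only [pr_fst, Prod.fst_sub, Prod.fst_add, Prod.smul_fst, ContinuousLinearMap.add_apply,
        ContinuousLinearMap.sub_apply, ContinuousLinearMap.smul_apply,
        ContinuousLinearMap.comp_apply, ContinuousLinearMap.one_apply, map_sub, two_smul]
      have : (g.trans g).linear x = g.linear (g.linear x) := rfl
      rw [this]
      abel
    · have h1 : (pr (g.trans g)).2 = g (g 0) := rfl
      have h2 : (pr g).2 = g 0 := rfl
      simp only [Prod.snd_sub, Prod.snd_add, Prod.smul_snd, h1, sub_zero,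
        ContinuousLinearMap.sub_apply, ContinuousLinearMap.one_apply, two_smul]
      rw [h2, pr_act g (g 0), h2]
      abel
  have h1 : ‖(pr g).1 - 1‖ ≤ Nn g := by
    rw [Nn_eq]
    exact le_max_left _ _
  have h2 : ‖(pr g).2‖ ≤ Nn g := by
    rw [Nn_eq]
    exact le_max_right _ _
  have h3 : ‖((((pr g).1 - 1) ∘L ((pr g).1 - 1), ((pr g).1 - 1) (pr g).2) :
      (V →L[ℝ] V) × V)‖ ≤ 1 / 2 * Nn g := by
    rw [Prod.norm_def]
    have h4 : ‖(pr g).1 - 1‖ ≤ 1 / 2 := h1.trans h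
    refine max_le ?_ ?_
    · refine (ContinuousLinearMap.opNorm_comp_le _ _).trans ?_
      exact mul_le_mul h4 h1 (norm_nonneg _) (by norm_num)
    · refine (ContinuousLinearMap.le_opNorm _ _).trans ?_
      exact mul_le_mul h4 h2 (norm_nonneg _) (by norm_num)
  have h5 : ‖(2 : ℝ) • (pr g - (1, 0))‖ = 2 * Nn g := by
    rw [norm_smul, Nn]
    norm_num
  have h6 : ‖(2 : ℝ) • (pr g - (1, 0))‖ ≤ ‖pr (g.trans g) - (1, 0)‖ +
      ‖((((pr g).1 - 1) ∘L ((pr g).1 - 1), ((pr g).1 - 1) (pr g).2) :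
      (V →L[ℝ] V) × V)‖ := by
    have h7 : (2 : ℝ) • (pr g - (1, 0)) = (pr (g.trans g) - (1, 0)) -
        (((pr g).1 - 1) ∘L ((pr g).1 - 1), ((pr g).1 - 1) (pr g).2) := by
      rw [e]
      abel
    nth_rewrite 1 [h7]
    exact norm_sub_le _ _
  have h8 : Nn (g.trans g) = ‖pr (g.trans g) - (1, 0)‖ := rfl
  rw [h5] at h6
  rw [h8]
  linarith

/-- powers -/
noncomputable def pw (g : V ≃ᵃ[ℝ] V) : ℕ → (V ≃ᵃ[ℝ] V)
  | 0 => AffineEquiv.refl ℝ V
  | (n + 1) => g.trans (pw g n)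

theorem pw_comm (g : V ≃ᵃ[ℝ] V) (n : ℕ) (x : V) : pw g n (g x) = g (pw g n x) := by
  induction n generalizing x with
  | zero => rfl
  | succ n ih =>
    change pw g n (g (g x)) = g (pw g n (g x))
    rw [ih]

theorem pw_add (g : V ≃ᵃ[ℝ] V) (m n : ℕ) (x : V) : pw g (m + n) x = pw g m (pw g n x) := by
  induction n generalizing x with
  | zero => rfl
  | succ n ih =>
    change pw g (m + n) (g x) = pw g m (pw g n (g x))
    rw [ih]

theorem pw_double (g : V ≃ᵃ[ℝ] V) (m : ℕ) : (pw g m).trans (pw g m) = pw g (2 * m) := by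
  ext x
  rw [two_mul, pw_add]
  rfl

theorem pw_mem {K : Set V} {g : V ≃ᵃ[ℝ] V} (hg : g '' K = K) (n : ℕ) : pw g n '' K = K := by
  induction n with
  | zero => simp [pw]
  | succ n ih =>
    change (g.trans (pw g n)) '' K = K
    rw [AffineEquiv.coe_trans, image_comp, hg, ih]

theorem exists_far (g : V ≃ᵃ[ℝ] V) (hg : g ≠ AffineEquiv.refl ℝ V) : ∃ m, 1 / 2 < Nn (pw g m) := by
  by_contra hcon
  push Not at hcon
  have h1 : ∀ k : ℕ, (3 / 2 : ℝ) ^ k * Nn g ≤ Nn (pw g (2 ^ k)) := by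
    intro k
    induction k with
    | zero =>
      have : pw g (2 ^ 0) = g := by
        ext x
        rfl
      rw [this]
      simp
    | succ k ih =>
      have h2 := Nn_double _ (hcon (2 ^ k))
      rw [pw_double] at h2
      rw [pow_succ' 2 k, pow_succ' (3 / 2 : ℝ) k, mul_assoc]
      refine le_trans ?_ h2
      exact mul_le_mul_of_nonneg_left ih (by norm_num)
  have hp := Nn_pos hg
  obtain ⟨k, hk⟩ := pow_unbounded_of_one_lt (1 / 2 / Nn g) (by norm_num : (1 : ℝ) < 3 / 2)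
  rw [div_lt_iff₀ hp] at hk
  have := h1 k
  have := hcon (2 ^ k)
  linarith

theorem pw_step (g : V ≃ᵃ[ℝ] V) (m : ℕ) :
    Nn (pw g (m + 1)) ≤ Nn (pw g m) + ‖(pr (pw g m)).1‖ * Nn g := by
  have e : pr (pw g (m + 1)) - (1, 0) = (pr (pw g m) - (1, 0)) +
      ((pr (pw g m)).1 ∘L ((pr g).1 - 1), (pr (pw g m)).1 (pr g).2) := by
    refine Prod.ext ?_ ?_
    · ext x
      simp only [pr_fst, Prod.fst_sub, Prod.fst_add, ContinuousLinearMap.add_apply,
        ContinuousLinearMap.sub_apply, ContinuousLinearMap.comp_apply,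
        ContinuousLinearMap.one_apply, map_sub]
      have : (pw g (m + 1)).linear x = (pw g m).linear (g.linear x) := rfl
      rw [this]
      abel
    · have h1 : (pr (pw g (m + 1))).2 = pw g m (g 0) := rfl
      have h2 : (pr g).2 = g 0 := rfl
      simp only [Prod.snd_sub, Prod.snd_add, h1, sub_zero]
      rw [h2, pr_act (pw g m) (g 0)]
      abel
  have h1 : ‖(pr g).1 - 1‖ ≤ Nn g := by
    rw [Nn_eq]
    exact le_max_left _ _
  have h2 : ‖(pr g).2‖ ≤ Nn g := by
    rw [Nn_eq]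
    exact le_max_right _ _
  have h3 : ‖(((pr (pw g m)).1 ∘L ((pr g).1 - 1), (pr (pw g m)).1 (pr g).2) :
      (V →L[ℝ] V) × V)‖ ≤ ‖(pr (pw g m)).1‖ * Nn g := by
    rw [Prod.norm_def]
    refine max_le ?_ ?_
    · refine (ContinuousLinearMap.opNorm_comp_le _ _).trans ?_
      gcongr
    · refine (ContinuousLinearMap.le_opNorm _ _).trans ?_
      gcongr
  rw [Nn, e]
  exact (norm_add_le _ _).trans (add_le_add le_rfl h3)

/-- symmetries at all small distances from the identity, up to the distance of one of them -/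
theorem chain {K : Set V} {C : ℝ} (hC : ∀ g : V ≃ᵃ[ℝ] V, g '' K = K → ‖(pr g).1‖ ≤ C)
    {g : V ≃ᵃ[ℝ] V} (hg : g '' K = K) (hne : g ≠ AffineEquiv.refl ℝ V) {s : ℝ} (hs : 0 < s)
    (hs2 : s ≤ 1 / 2) : ∃ h : V ≃ᵃ[ℝ] V, h '' K = K ∧ s ≤ Nn h ∧ Nn h ≤ s + C * Nn g := by
  classical
  have hex : ∃ m, s ≤ Nn (pw g m) := by
    obtain ⟨m, hm⟩ := exists_far g hne
    exact ⟨m, hs2.trans hm.le⟩
  let m := Nat.find hex
  have hm : s ≤ Nn (pw g m) := Nat.find_spec hex
  have hm0 : m ≠ 0 := by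
    intro h0
    rw [h0] at hm
    have : Nn (pw g 0) = 0 := by
      change ‖pr (AffineEquiv.refl ℝ V) - (1, 0)‖ = 0
      rw [pr_refl, sub_self, norm_zero]
    linarith
  obtain ⟨k, hk⟩ := Nat.exists_eq_succ_of_ne_zero hm0
  have hk1 : Nn (pw g k) < s := by
    have := Nat.find_min hex (m := k) (by
      change k < m
      omega)
    exact not_le.1 this
  refine ⟨pw g m, pw_mem hg m, hm, ?_⟩
  rw [hk]
  have h1 := pw_step g k
  have h2 := mul_le_mul_of_nonneg_right (hC _ (pw_mem hg k)) (Nn_nonneg g)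
  change Nn (pw g (k + 1)) ≤ _
  linarith

/-- two symmetries near to each other give one near to the identity -/
theorem Nn_quot {g h : V ≃ᵃ[ℝ] V} {C : ℝ} (hC : ‖(pr h.symm).1‖ ≤ C) :
    Nn (g.trans h.symm) ≤ C * ‖pr g - pr h‖ := by
  have e : pr (g.trans h.symm) - (1, 0) =
      ((pr h.symm).1 ∘L ((pr g).1 - (pr h).1), (pr h.symm).1 ((pr g).2 - (pr h).2)) := by
    refine Prod.ext ?_ ?_
    · ext x
      simp only [Prod.fst_sub, ContinuousLinearMap.sub_apply, ContinuousLinearMap.comp_apply,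
        ContinuousLinearMap.one_apply, map_sub, pr_fst]
      have h1 : (g.trans h.symm).linear x = h.symm.linear (g.linear x) := rfl
      have h2 : h.symm.linear (h.linear x) = x := h.linear.symm_apply_apply x
      rw [h1, h2]
    · have h1 : (pr (g.trans h.symm)).2 = h.symm (g 0) := rfl
      have h2 : (pr g).2 = g 0 := rfl
      have h3 : (pr h).2 = h 0 := rfl
      simp only [Prod.snd_sub, h1, sub_zero]
      rw [h2, h3, lin_sub, AffineEquiv.symm_apply_apply, sub_zero]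
  have hC0 : 0 ≤ C := (norm_nonneg _).trans hC
  have h1 : ‖(pr g).1 - (pr h).1‖ ≤ ‖pr g - pr h‖ := by
    rw [Prod.norm_def]
    exact le_max_left _ _
  have h2 : ‖(pr g).2 - (pr h).2‖ ≤ ‖pr g - pr h‖ := by
    rw [Prod.norm_def]
    exact le_max_right _ _
  rw [Nn, e, Prod.norm_def]
  refine max_le ?_ ?_
  · refine (ContinuousLinearMap.opNorm_comp_le _ _).trans ?_
    exact mul_le_mul hC h1 (norm_nonneg _) hC0
  · refine (ContinuousLinearMap.le_opNorm _ _).trans ?_
    exact mul_le_mul hC h2 (norm_nonneg _) hC0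

end

end Pool.Agent.Zk76.Wt
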