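import Mathlib

/-!
Every convex body of dimension `n` has an affine image between two fixed balls (a simplex of maximal
volume in the body).
-/

set_option autoImplicit false
set_option linter.style.haveILetI false

open Module Set Metric

namespace Pool.Agent.Zk76.Wt

section

variable {E : Type*} [NormedAddCommGroup E] [NormedSpace ℝ E]

/-- the first coordinate function of the determinant -/
theorem det_update {n : ℕ} (w : Basis (Fin n) ℝ E) (i : Fin n) (y : E) :
    w.det (Function.update w i y) = w.repr y i := by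
  rw [Basis.det_apply, Basis.toMatrix_update, Basis.toMatrix_self, ← Matrix.cramer_apply,
    Matrix.cramer_one]
  rfl

theorem exists_simplex {n : ℕ} (b : Basis (Fin n) ℝ E) {K : Set E} (hc : IsCompact K)
    (hi : (interior K).Nonempty) :
    ∃ (x₀ : E) (w : Basis (Fin n) ℝ E), x₀ ∈ K ∧ (∀ i, x₀ + w i ∈ K) ∧
      ∀ y ∈ K, ∀ i, |w.repr (y - x₀) i| ≤ 1 := by
  haveI : FiniteDimensional ℝ E := b.finiteDimensional_of_finite
  obtain ⟨y, hy⟩ := hi
  have hcont : Continuous fun p : (Fin n → E) × E => |b.det fun i => p.1 i - p.2| := by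
    have h1 : Continuous fun v : Fin n → E => b.det v := by
      have h2 : (fun v : Fin n → E => b.det v) = fun v => (b.toMatrix v).det := by
        funext v
        exact b.det_apply v
      rw [h2]
      refine Continuous.matrix_det ?_
      refine continuous_matrix fun i j => ?_
      have h3 : Continuous fun z : E => b.repr z i :=
        (LinearMap.continuous_of_finiteDimensional (b.coord i))
      exact h3.comp (continuous_apply j)
    exact (h1.comp (by fun_prop : Continuous fun p : (Fin n → E) × E => fun i => p.1 i - p.2)).abs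
  have hcomp : IsCompact ((univ.pi fun _ : Fin n => K) ×ˢ K) :=
    (isCompact_univ_pi fun _ => hc).prod hc
  obtain ⟨⟨x, x₀⟩, ⟨hx, hx₀⟩, hmax⟩ := hcomp.exists_isMaxOn
    ⟨⟨fun _ => y, y⟩, fun _ _ => interior_subset hy, interior_subset hy⟩ hcont.continuousOn
  have hxK : ∀ i, x i ∈ K := fun i => hx i (mem_univ i)
  have hx₀' : x₀ ∈ K := hx₀
  -- the maximum is positive
  have hpos : 0 < |b.det fun i => x i - x₀| := by
    obtain ⟨ε, hε, hball⟩ := Metric.isOpen_iff.1 isOpen_interior y hy
    obtain ⟨δ, hδ, hδb⟩ : ∃ δ : ℝ, 0 < δ ∧ ∀ i, y + δ • b i ∈ K := by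
      let M : ℝ := 1 + ∑ i, ‖b i‖
      have hM : 0 < M := by positivity
      refine ⟨ε / (2 * M), by positivity, fun i => interior_subset (hball ?_)⟩
      rw [mem_ball, dist_eq_norm, add_sub_cancel_left, norm_smul, Real.norm_eq_abs,
        abs_of_pos (by positivity)]
      have h1 : ‖b i‖ ≤ M := by
        have := Finset.single_le_sum (f := fun i => ‖b i‖) (fun i _ => norm_nonneg _)
          (Finset.mem_univ i)
        linarith
      calc ε / (2 * M) * ‖b i‖ ≤ ε / (2 * M) * M := by gcongr
        _ = ε / 2 := by field_simp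
        _ < ε := by linarith
    have h1 : |b.det fun i => (y + δ • b i) - y| ≤ |b.det fun i => x i - x₀| :=
      hmax (show ((fun i => y + δ • b i, y) : (Fin n → E) × E) ∈ _ from
        ⟨fun i _ => hδb i, interior_subset hy⟩)
    have h2 : b.det (fun i => (y + δ • b i) - y) = δ ^ n := by
      have h3 : (fun i => (y + δ • b i) - y) = fun i => δ • b i := by
        funext i
        abel
      rw [h3, b.det.map_smul_univ (fun _ => δ) b, b.det_self]
      simp
    rw [h2, abs_of_pos (pow_pos hδ n)] at h1
    exact lt_of_lt_of_le (pow_pos hδ n) h1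
  have hunit : IsUnit (b.det fun i => x i - x₀) := by
    rw [isUnit_iff_ne_zero]
    exact abs_pos.1 hpos
  obtain ⟨hli, hsp⟩ := (b.is_basis_iff_det).2 hunit
  let w : Basis (Fin n) ℝ E := Basis.mk hli hsp.ge
  have hw : ∀ i, w i = x i - x₀ := fun i => Basis.mk_apply _ _ i
  have hw' : (w : Fin n → E) = fun i => x i - x₀ := funext hw
  refine ⟨x₀, w, hx₀', fun i => ?_, fun z hz i => ?_⟩
  · rw [hw, add_sub_cancel]
    exact hxK i
  · have h1 : |b.det fun j => (Function.update x i z) j - x₀| ≤ |b.det fun i => x i - x₀| :=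
      hmax (show ((Function.update x i z, x₀) : (Fin n → E) × E) ∈ _ from
        ⟨fun j _ => by
          by_cases hj : j = i
          · subst hj
            simpa using hz
          · simpa [Function.update_of_ne hj] using hxK j, hx₀⟩)
    have h2 : (fun j => (Function.update x i z) j - x₀) = Function.update w i (z - x₀) := by
      funext j
      by_cases hj : j = i
      · subst hj
        simp
      · rw [Function.update_of_ne hj, Function.update_of_ne hj, hw]
    have h3 : ∀ u : Fin n → E, b.det u = b.det w * w.det u := by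
      intro u
      have h4 := b.det.eq_smul_basis_det w
      nth_rewrite 1 [h4]
      rfl
    rw [h2, h3, det_update, abs_mul, hw'] at h1
    have h5 : |b.det fun i => x i - x₀| * |w.repr (z - x₀) i| ≤
        |b.det fun i => x i - x₀| * 1 := by rw [mul_one]; exact h1
    exact le_of_mul_le_mul_left h5 hpos

/-- the centre of the inner ball -/
noncomputable def ctr (n : ℕ) : EuclideanSpace ℝ (Fin n) := WithLp.toLp 2 fun _ => 1 / (2 * (n : ℝ))

theorem exists_position {n : ℕ} (hn : 0 < n) (hd : finrank ℝ E = n) {K : Set E}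
    (hK : Convex ℝ K) (hc : IsCompact K) (hi : (interior K).Nonempty) :
    ∃ T : E ≃ᵃ[ℝ] EuclideanSpace ℝ (Fin n),
      closedBall (ctr n) (1 / (2 * (n : ℝ))) ⊆ T '' K ∧ T '' K ⊆ closedBall 0 (n : ℝ) := by
  haveI : FiniteDimensional ℝ E := FiniteDimensional.of_finrank_pos (by omega)
  obtain ⟨x₀, w, hx₀, hw, hbd⟩ := exists_simplex (finBasisOfFinrankEq ℝ E hd) hc hi
  have hnR : (0 : ℝ) < n := by exact_mod_cast hn
  have hn1 : (1 : ℝ) ≤ n := by exact_mod_cast hn
  let L : E ≃ₗ[ℝ] EuclideanSpace ℝ (Fin n) :=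
    w.equivFun.trans (WithLp.linearEquiv 2 ℝ (Fin n → ℝ)).symm
  let T : E ≃ᵃ[ℝ] EuclideanSpace ℝ (Fin n) :=
    (AffineEquiv.constVAdd ℝ E (-x₀)).trans L.toAffineEquiv
  have hT : ∀ y i, T y i = w.repr (y - x₀) i := by
    intro y i
    change w.repr (-x₀ + y) i = _
    rw [neg_add_eq_sub]
  refine ⟨T, ?_, ?_⟩
  · intro p hp
    have hp1 : ∀ i, |p i - 1 / (2 * (n : ℝ))| ≤ 1 / (2 * (n : ℝ)) := by
      intro i
      rw [mem_closedBall, dist_eq_norm] at hp
      exact (PiLp.norm_apply_le (p - ctr n) i).trans hp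
    have hp0 : ∀ i, 0 ≤ p i := fun i => by
      have := abs_le.1 (hp1 i)
      linarith [this.1]
    have hp2 : ∀ i, p i ≤ 1 / (n : ℝ) := fun i => by
      have h1 := (abs_le.1 (hp1 i)).2
      have h2 : 1 / (n : ℝ) = 1 / (2 * (n : ℝ)) + 1 / (2 * (n : ℝ)) := by
        field_simp
        norm_num
      linarith
    have hsum : ∑ i, p i ≤ 1 := by
      calc ∑ i, p i ≤ ∑ _i : Fin n, 1 / (n : ℝ) := Finset.sum_le_sum fun i _ => hp2 i
        _ = 1 := by
          rw [Finset.sum_const, Finset.card_univ, Fintype.card_fin, nsmul_eq_mul]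
          field_simp
    refine ⟨x₀ + ∑ i, p i • w i, ?_, ?_⟩
    · have h1 : x₀ + ∑ i, p i • w i =
          ∑ o : Option (Fin n), (o.elim (1 - ∑ i, p i) p : ℝ) • (o.elim x₀ fun i => x₀ + w i) := by
        rw [Fintype.sum_option]
        simp only [Option.elim, smul_add, Finset.sum_add_distrib, sub_smul, one_smul,
          ← Finset.sum_smul]
        abel
      rw [h1]
      refine hK.sum_mem ?_ ?_ ?_
      · rintro (_ | i) -
        · simpa using hsum
        · exact hp0 i
      · rw [Fintype.sum_option]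
        simp
      · rintro (_ | i) -
        · exact hx₀
        · exact hw i
    · ext i
      rw [hT, add_sub_cancel_left, map_sum]
      simp [Finsupp.single_apply]
  · rintro _ ⟨y, hy, rfl⟩
    rw [mem_closedBall_zero_iff, ← sq_le_sq₀ (norm_nonneg _) hnR.le, EuclideanSpace.norm_sq_eq]
    calc ∑ i, ‖T y i‖ ^ 2 ≤ ∑ _i : Fin n, (1 : ℝ) := by
          refine Finset.sum_le_sum fun i _ => ?_
          rw [hT, Real.norm_eq_abs]
          exact pow_le_one₀ (abs_nonneg _) (hbd y hy i)
      _ = n := by simp
      _ ≤ (n : ℝ) ^ 2 := by nlinarith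

end

end Pool.Agent.Zk76.Wt
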