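import Mathlib
import Pool.Agent.H318R3.St.Haus
import Pool.Agent.Zk76.Wt.Near
import Pool.Agent.Zk76.Wt.Position

/-!
Convex bodies with many affine symmetries are near to convex bodies with infinitely many.
-/

set_option autoImplicit false
set_option linter.style.haveILetI false
set_option linter.unusedSectionVars false
set_option linter.deprecated false

open Module Set Metric Filter Topology

namespace Pool.Agent.Zk76.Wt

section

variable {V : Type*} [NormedAddCommGroup V] [InnerProductSpace ℝ V] [FiniteDimensional ℝ V]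

/-- pigeonhole -/
theorem exists_near_pair (M : ℝ) {ε : ℝ} (hε : 0 < ε) :
    ∃ N : ℕ, ∀ F : Finset (V ≃ᵃ[ℝ] V), (∀ g ∈ F, ‖pr g‖ ≤ M) → N < F.card →
      ∃ g ∈ F, ∃ h ∈ F, g ≠ h ∧ ‖pr g - pr h‖ < ε := by
  classical
  have hcomp : IsCompact (closedBall (0 : (V →L[ℝ] V) × V) M) := isCompact_closedBall _ _
  obtain ⟨t, htf, ht⟩ := Metric.totallyBounded_iff.1 hcomp.totallyBounded (ε / 2) (by positivity)
  refine ⟨htf.toFinset.card, fun F hF hcard => ?_⟩
  have h1 : ∀ g : V ≃ᵃ[ℝ] V, ∃ c, g ∈ F → c ∈ t ∧ dist (pr g) c < ε / 2 := by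
    intro g
    by_cases hg : g ∈ F
    · have h2 : pr g ∈ closedBall (0 : (V →L[ℝ] V) × V) M := by
        rw [mem_closedBall_zero_iff]
        exact hF g hg
      obtain ⟨c, hc⟩ := mem_iUnion.1 (ht h2)
      obtain ⟨hct, hc2⟩ := mem_iUnion.1 hc
      exact ⟨c, fun _ => ⟨hct, hc2⟩⟩
    · exact ⟨0, fun h => absurd h hg⟩
  choose c hc using h1
  obtain ⟨g, hg, h, hh, hne, heq⟩ := Finset.exists_ne_map_eq_of_card_lt_of_maps_to
    (s := F) (t := htf.toFinset) (f := c) hcard (fun g hg => by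
      simpa using (hc g (by simpa using hg)).1)
  refine ⟨g, hg, h, hh, hne, ?_⟩
  have h3 := (hc g hg).2
  have h4 := (hc h hh).2
  rw [heq] at h3
  rw [← dist_eq_norm]
  calc dist (pr g) (pr h) ≤ dist (pr g) (c h) + dist (c h) (pr h) := dist_triangle _ _ _
    _ = dist (pr g) (c h) + dist (pr h) (c h) := by rw [dist_comm (c h)]
    _ < ε := by linarith

/-- the affine map given by two pairs inverse to each other -/
noncomputable def mkE (A A' : V →L[ℝ] V) (a : V) (h1 : ∀ x, A' (A x) = x)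
    (h2 : ∀ x, A (A' x) = x) : V ≃ᵃ[ℝ] V :=
  (LinearEquiv.ofLinearMap (A : V →ₗ[ℝ] V) (A' : V →ₗ[ℝ] V) (LinearMap.ext h2)
    (LinearMap.ext h1)).toAffineEquiv.trans (AffineEquiv.constVAdd ℝ V a)

theorem mkE_apply (A A' : V →L[ℝ] V) (a : V) (h1 : ∀ x, A' (A x) = x)
    (h2 : ∀ x, A (A' x) = x) (x : V) : mkE A A' a h1 h2 x = A x + a := by
  change a + A x = A x + a
  abel

theorem pr_mkE (A A' : V →L[ℝ] V) (a : V) (h1 : ∀ x, A' (A x) = x)
    (h2 : ∀ x, A (A' x) = x) : pr (mkE A A' a h1 h2) = (A, a) := by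
  refine Prod.ext ?_ ?_
  · ext x
    rfl
  · change mkE A A' a h1 h2 0 = a
    rw [mkE_apply, map_zero, zero_add]

theorem lim_app {A : ℕ → (V →L[ℝ] V)} {B : V →L[ℝ] V} {u : ℕ → V} {x : V}
    (hA : Tendsto A atTop (𝓝 B)) (hu : Tendsto u atTop (𝓝 x)) :
    Tendsto (fun n => A n (u n)) atTop (𝓝 (B x)) := by
  have h1 : Continuous fun p : (V →L[ℝ] V) × V => p.1 p.2 := isBoundedBilinearMap_apply.continuous
  exact (h1.tendsto (B, x)).comp (hA.prodMk_nhds hu)

/-- limits of points -/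
theorem seq_lim {K : ℕ → Set V} {L : Set V} (hcl : ∀ n, IsCompact (K n))
    (hne : ∀ n, (K n).Nonempty) (hL : IsCompact L) (hLne : L.Nonempty)
    (hlim : Tendsto (fun k => hausdorffDist (K k) L) atTop (𝓝 0)) {x : V} (hx : x ∈ L) :
    ∃ u : ℕ → V, (∀ n, u n ∈ K n) ∧ Tendsto u atTop (𝓝 x) := by
  have h1 : ∀ n, ∃ y ∈ K n, dist x y ≤ hausdorffDist (K n) L + 1 / ((n : ℝ) + 1) := by
    intro n
    have h2 : hausdorffDist L (K n) < hausdorffDist (K n) L + 1 / ((n : ℝ) + 1) := by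
      rw [hausdorffDist_comm]
      have : (0 : ℝ) < 1 / ((n : ℝ) + 1) := by positivity
      linarith
    obtain ⟨y, hy, hy2⟩ := exists_dist_lt_of_hausdorffDist_lt hx h2
      (Pool.Agent.H318R3.St.haus_fin hLne (hne n) hL (hcl n))
    exact ⟨y, hy, hy2.le⟩
  choose u hu hu2 using h1
  refine ⟨u, hu, tendsto_iff_dist_tendsto_zero.2 ?_⟩
  refine squeeze_zero (fun _ => dist_nonneg) (fun n => ?_)
    (by simpa using hlim.add (tendsto_one_div_add_atTop_nhds_zero_nat (𝕜 := ℝ)))
  rw [dist_comm]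
  simpa using hu2 n

theorem lim_mem {K : ℕ → Set V} {L : Set V} (hcl : ∀ n, IsCompact (K n))
    (hne : ∀ n, (K n).Nonempty) (hL : IsCompact L) (hLne : L.Nonempty)
    (hlim : Tendsto (fun k => hausdorffDist (K k) L) atTop (𝓝 0)) {u : ℕ → V} {x : V}
    (hu : ∀ n, u n ∈ K n) (hx : Tendsto u atTop (𝓝 x)) : x ∈ L := by
  have h1 : ∀ n, infDist (u n) L ≤ hausdorffDist (K n) L := fun n =>
    infDist_le_hausdorffDist_of_mem (hu n)
      (Pool.Agent.H318R3.St.haus_fin (hne n) hLne (hcl n) hL)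
  have h2 : Tendsto (fun n => infDist (u n) L) atTop (𝓝 0) :=
    squeeze_zero (fun _ => infDist_nonneg) h1 hlim
  have h3 : Tendsto (fun n => infDist (u n) L) atTop (𝓝 (infDist x L)) :=
    ((continuous_infDist_pt L).tendsto x).comp hx
  have h4 := tendsto_nhds_unique h3 h2
  exact (hL.isClosed.mem_iff_infDist_zero hLne).2 h4

/-- limits of symmetries -/
theorem limit_symm {K : ℕ → Set V} {L : Set V} (hcl : ∀ n, IsCompact (K n))
    (hne : ∀ n, (K n).Nonempty) (hL : IsCompact L) (hLne : L.Nonempty)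
    (hlim : Tendsto (fun k => hausdorffDist (K k) L) atTop (𝓝 0)) {h : ℕ → (V ≃ᵃ[ℝ] V)}
    (hs : ∀ n, h n '' K n = K n) {P P' : (V →L[ℝ] V) × V}
    (hP : Tendsto (fun n => pr (h n)) atTop (𝓝 P))
    (hP' : Tendsto (fun n => pr (h n).symm) atTop (𝓝 P')) :
    ∃ g : V ≃ᵃ[ℝ] V, g '' L = L ∧ pr g = P := by
  obtain ⟨A, a⟩ := P
  obtain ⟨A', a'⟩ := P'
  have hA := (continuous_fst.tendsto _).comp hP
  have ha := (continuous_snd.tendsto _).comp hP
  have hA' := (continuous_fst.tendsto _).comp hP'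
  have ha' := (continuous_snd.tendsto _).comp hP'
  simp only [Function.comp_def] at hA ha hA' ha'
  -- limits of values
  have hval : ∀ {u : ℕ → V} {x : V}, Tendsto u atTop (𝓝 x) →
      Tendsto (fun n => h n (u n)) atTop (𝓝 (A x + a)) := by
    intro u x hu
    have h1 : (fun n => h n (u n)) = fun n => (pr (h n)).1 (u n) + (pr (h n)).2 :=
      funext fun n => pr_act _ _
    rw [h1]
    exact (lim_app hA hu).add ha
  have hval' : ∀ {u : ℕ → V} {x : V}, Tendsto u atTop (𝓝 x) →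
      Tendsto (fun n => (h n).symm (u n)) atTop (𝓝 (A' x + a')) := by
    intro u x hu
    have h1 : (fun n => (h n).symm (u n)) = fun n => (pr (h n).symm).1 (u n) + (pr (h n).symm).2 :=
      funext fun n => pr_act _ _
    rw [h1]
    exact (lim_app hA' hu).add ha'
  have hlin : ∀ x, A' (A x) = x := by
    intro x
    have h1 : Tendsto (fun n => (pr (h n).symm).1 ((pr (h n)).1 x)) atTop (𝓝 (A' (A x))) :=
      lim_app hA' (lim_app hA tendsto_const_nhds)
    have h2 : (fun n => (pr (h n).symm).1 ((pr (h n)).1 x)) = fun _ => x := by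
      funext n
      exact (h n).linear.symm_apply_apply x
    rw [h2] at h1
    exact tendsto_nhds_unique h1 tendsto_const_nhds
  have hlin' : ∀ x, A (A' x) = x := by
    intro x
    have h1 : Tendsto (fun n => (pr (h n)).1 ((pr (h n).symm).1 x)) atTop (𝓝 (A (A' x))) :=
      lim_app hA (lim_app hA' tendsto_const_nhds)
    have h2 : (fun n => (pr (h n)).1 ((pr (h n).symm).1 x)) = fun _ => x := by
      funext n
      exact (h n).linear.apply_symm_apply x
    rw [h2] at h1
    exact tendsto_nhds_unique h1 tendsto_const_nhds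
  have haff : ∀ x, A (A' x + a') + a = x := by
    intro x
    have h1 := hval (hval' (u := fun _ => x) tendsto_const_nhds)
    simp only [AffineEquiv.apply_symm_apply] at h1
    exact tendsto_nhds_unique h1 tendsto_const_nhds
  have hs' : ∀ n, ∀ y ∈ K n, (h n).symm y ∈ K n := by
    intro n y hy
    obtain ⟨z, hz, rfl⟩ := (hs n).symm.subset hy
    rwa [AffineEquiv.symm_apply_apply]
  refine ⟨mkE A A' a hlin hlin', ?_, pr_mkE _ _ _ _ _⟩
  refine Subset.antisymm ?_ ?_
  · rintro _ ⟨x, hx, rfl⟩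
    rw [mkE_apply]
    obtain ⟨u, hu, hux⟩ := seq_lim hcl hne hL hLne hlim hx
    exact lim_mem hcl hne hL hLne hlim
      (fun n => (hs n).subset (mem_image_of_mem _ (hu n))) (hval hux)
  · intro x hx
    obtain ⟨u, hu, hux⟩ := seq_lim hcl hne hL hLne hlim hx
    refine ⟨A' x + a', lim_mem hcl hne hL hLne hlim (fun n => hs' n _ (hu n)) (hval' hux), ?_⟩
    rw [mkE_apply]
    exact haff x

/-- the limit of bodies with more and more symmetries has infinitely many -/
theorem limit_many {K : ℕ → Set V} {L : Set V} (hcl : ∀ n, IsCompact (K n)) {q : V} {r R : ℝ}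
    (hr : 0 < r) (hin : ∀ n, closedBall q r ⊆ K n) (hout : ∀ n, K n ⊆ closedBall 0 R)
    (hL : IsCompact L) (hLne : L.Nonempty)
    (hlim : Tendsto (fun k => hausdorffDist (K k) L) atTop (𝓝 0))
    (hmany : ∀ n, ∃ F : Finset (V ≃ᵃ[ℝ] V), n < F.card ∧ ∀ g ∈ F, g '' K n = K n) :
    {g : V ≃ᵃ[ℝ] V | g '' L = L}.Infinite := by
  classical
  have hne : ∀ n, (K n).Nonempty := fun n => ⟨q, hin n (mem_closedBall_self hr.le)⟩
  have hR : 0 ≤ R := (norm_nonneg q).trans
    (mem_closedBall_zero_iff.1 (hout 0 (hin 0 (mem_closedBall_self hr.le))))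
  let C : ℝ := 2 * R / r
  have hC0 : 0 ≤ C := by positivity
  let M : ℝ := max C (R + C * ‖q‖)
  have hsy : ∀ n, ∀ g : V ≃ᵃ[ℝ] V, g '' K n = K n → g.symm '' K n = K n := by
    intro n g hg
    nth_rewrite 1 [← hg]
    rw [← image_comp]
    have : (g.symm : V → V) ∘ g = id := by
      funext x
      exact g.symm_apply_apply x
    rw [this, image_id]
  have hbd : ∀ n, ∀ g : V ≃ᵃ[ℝ] V, g '' K n = K n → ‖(pr g).1‖ ≤ C := fun n g hg =>
    (pr_bound hr (hin n) (hout n) g hg).1
  have hbM : ∀ n, ∀ g : V ≃ᵃ[ℝ] V, g '' K n = K n → ‖pr g‖ ≤ M := by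
    intro n g hg
    rw [Prod.norm_def]
    exact max_le_max (pr_bound hr (hin n) (hout n) g hg).1 (pr_bound hr (hin n) (hout n) g hg).2
  -- symmetries near the identity
  have hnear : ∀ ε : ℝ, 0 < ε → ∃ N : ℕ, ∀ n, N ≤ n → ∃ g : V ≃ᵃ[ℝ] V, g '' K n = K n ∧
      g ≠ AffineEquiv.refl ℝ V ∧ Nn g ≤ ε := by
    intro ε hε
    obtain ⟨N, hN⟩ := exists_near_pair (V := V) M (ε := ε / (C + 1)) (by positivity)
    refine ⟨N, fun n hn => ?_⟩
    obtain ⟨F, hF, hFs⟩ := hmany n
    obtain ⟨g, hg, h, hh, hgh, hd⟩ := hN F (fun g hg => hbM n g (hFs g hg)) (by omega)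
    refine ⟨g.trans h.symm, ?_, ?_, ?_⟩
    · rw [AffineEquiv.coe_trans, image_comp, hFs g hg, hsy n h (hFs h hh)]
    · intro he
      apply hgh
      ext x
      have h1 : h.symm (g x) = x := by
        have := congrArg (fun f : V ≃ᵃ[ℝ] V => f x) he
        simpa using this
      rw [← h1, AffineEquiv.apply_symm_apply, h1]
    · refine (Nn_quot (hbd n _ (hsy n h (hFs h hh)))).trans ?_
      calc C * ‖pr g - pr h‖ ≤ C * (ε / (C + 1)) := by gcongr
        _ ≤ ε := by
          rw [← mul_div_assoc, div_le_iff₀ (by positivity)]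
          nlinarith
  -- for each distance a symmetry of the limit
  have hall : ∀ s : ℝ, 0 < s → s ≤ 1 / 2 → ∃ g : V ≃ᵃ[ℝ] V, g '' L = L ∧ Nn g = s := by
    intro s hs hs2
    have h1 : ∀ k : ℕ, ∃ n, k ≤ n ∧ ∃ h : V ≃ᵃ[ℝ] V, h '' K n = K n ∧ s ≤ Nn h ∧
        Nn h ≤ s + C * (1 / ((k : ℝ) + 1)) := by
      intro k
      obtain ⟨N, hN⟩ := hnear (1 / ((k : ℝ) + 1)) (by positivity)
      obtain ⟨g, hg, hg1, hg2⟩ := hN (max N k) (le_max_left _ _)
      obtain ⟨h, hh, hh1, hh2⟩ := chain (hbd (max N k)) hg hg1 hs hs2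
      refine ⟨max N k, le_max_right _ _, h, hh, hh1, hh2.trans ?_⟩
      gcongr
    choose m hm h hh hh1 hh2 using h1
    have hm' : Tendsto m atTop atTop := tendsto_atTop_mono hm tendsto_id
    have hNlim : Tendsto (fun k => Nn (h k)) atTop (𝓝 s) := by
      refine tendsto_of_tendsto_of_tendsto_of_le_of_le tendsto_const_nhds ?_ hh1 hh2
      simpa using (tendsto_one_div_add_atTop_nhds_zero_nat (𝕜 := ℝ)).const_mul C |>.const_add s
    have hcomp : IsCompact ((closedBall (0 : (V →L[ℝ] V) × V) M) ×ˢ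
        (closedBall (0 : (V →L[ℝ] V) × V) M)) :=
      (isCompact_closedBall _ _).prod (isCompact_closedBall _ _)
    obtain ⟨⟨P, P'⟩, -, φ, hφ, hPP⟩ := hcomp.tendsto_subseq
      (x := fun k => (pr (h k), pr (h k).symm)) (fun k => ⟨by
        rw [mem_closedBall_zero_iff]
        exact hbM _ _ (hh k), by
        rw [mem_closedBall_zero_iff]
        exact hbM _ _ (hsy _ _ (hh k))⟩)
    have hP := (continuous_fst.tendsto _).comp hPP
    have hP' := (continuous_snd.tendsto _).comp hPP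
    simp only [Function.comp_def] at hP hP'
    obtain ⟨g, hg, hgP⟩ := limit_symm (K := fun k => K (m (φ k))) (fun k => hcl _)
      (fun k => hne _) hL hLne (hlim.comp (hm'.comp hφ.tendsto_atTop))
      (h := fun k => h (φ k)) (fun k => hh _) hP hP'
    refine ⟨g, hg, ?_⟩
    have h3 : Tendsto (fun k => Nn (h (φ k))) atTop (𝓝 (Nn g)) := by
      rw [Nn, hgP]
      exact (hP.sub_const _).norm
    exact tendsto_nhds_unique h3 (hNlim.comp hφ.tendsto_atTop)
  have hch : ∀ s : ℝ, ∃ g : V ≃ᵃ[ℝ] V, 0 < s → s ≤ 1 / 2 → g '' L = L ∧ Nn g = s := by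
    intro s
    by_cases h1 : 0 < s ∧ s ≤ 1 / 2
    · obtain ⟨g, hg⟩ := hall s h1.1 h1.2
      exact ⟨g, fun _ _ => hg⟩
    · exact ⟨AffineEquiv.refl ℝ V, fun h2 h3 => absurd ⟨h2, h3⟩ h1⟩
  choose G hG using hch
  have hinf : (Ioc (0 : ℝ) (1 / 2)).Infinite := Ioc_infinite (by norm_num)
  refine Set.infinite_of_injOn_mapsTo (f := G) (s := Ioc (0 : ℝ) (1 / 2)) ?_ ?_ hinf
  · intro s hs t ht hst
    rw [← (hG s hs.1 hs.2).2, ← (hG t ht.1 ht.2).2, hst]
  · intro s hs
    exact (hG s hs.1 hs.2).1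

end

section

/-- convex bodies in position -/
theorem bound_position {n : ℕ} (hn : 0 < n) {m : ℕ}
    (h : ∀ K : Set (EuclideanSpace ℝ (Fin n)), Convex ℝ K → IsCompact K → (interior K).Nonempty →
      {g : EuclideanSpace ℝ (Fin n) ≃ᵃ[ℝ] EuclideanSpace ℝ (Fin n) | g '' K = K}.Infinite →
      Cov m K) :
    ∃ N : ℕ, ∀ K : Set (EuclideanSpace ℝ (Fin n)), Convex ℝ K → IsCompact K →
      closedBall (ctr n) (1 / (2 * (n : ℝ))) ⊆ K → K ⊆ closedBall 0 (n : ℝ) →
      (∃ F : Finset (EuclideanSpace ℝ (Fin n) ≃ᵃ[ℝ] EuclideanSpace ℝ (Fin n)),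
        N < F.card ∧ ∀ g ∈ F, g '' K = K) → Cov m K := by
  by_contra hcon
  push Not at hcon
  choose K hK hc hin hout hF hcov using hcon
  have hnR : (0 : ℝ) < n := by exact_mod_cast hn
  have hr : 0 < 1 / (2 * (n : ℝ)) := by positivity
  have hne : ∀ k, (K k).Nonempty := fun k => ⟨_, hin k (mem_closedBall_self hr.le)⟩
  obtain ⟨L, hL, hLne, hLc, hLR, φ, hφ, hlim⟩ :=
    Pool.Agent.H318R3.St.blaschke K (n : ℝ) hc hne hK hout
  have hLin : closedBall (ctr n) (1 / (2 * (n : ℝ))) ⊆ L := by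
    intro x hx
    exact lim_mem (K := fun k => K (φ k)) (fun _ => hc _) (fun _ => hne _) hL hLne hlim
      (u := fun _ => x) (fun k => hin _ hx) tendsto_const_nhds
  have hLint : (interior L).Nonempty := by
    refine ⟨ctr n, mem_interior.2 ⟨ball (ctr n) (1 / (2 * (n : ℝ))),
      ball_subset_closedBall.trans hLin, isOpen_ball, mem_ball_self hr⟩⟩
  have hinf := limit_many (K := fun k => K (φ k)) (fun _ => hc _) hr (fun _ => hin _)
    (fun _ => hout _) hL hLne hlim (fun k => by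
      obtain ⟨F, hF1, hF2⟩ := hF (φ k)
      exact ⟨F, lt_of_le_of_lt (hφ.id_le k) hF1, hF2⟩)
  obtain ⟨δ, hδ, hnear⟩ := cov_near hL hLne (h L hLc hL hLint hinf)
  obtain ⟨k, hk⟩ := (hlim.eventually (gt_mem_nhds hδ)).exists
  exact hcov (φ k) (hnear (K (φ k)) (hc _) (hne _) (hK _) hk)

variable {E : Type*} [NormedAddCommGroup E] [NormedSpace ℝ E] [FiniteDimensional ℝ E]
  {V : Type*} [NormedAddCommGroup V] [NormedSpace ℝ V] [FiniteDimensional ℝ V]

theorem image_interior_aff (T : E ≃ᵃ[ℝ] V) (K : Set E) : T '' interior K = interior (T '' K) :=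
  (T.toHomeomorphOfFiniteDimensional).image_interior K

theorem cov_transfer (T : E ≃ᵃ[ℝ] V) {m : ℕ} {K : Set E} (h : Cov m (T '' K)) : Cov m K := by
  classical
  obtain ⟨S, hS, hcov⟩ := h
  refine ⟨S.image T.linear.symm, Finset.card_image_le.trans hS, fun x hx => ?_⟩
  obtain ⟨t, ht⟩ := mem_iUnion.1 (hcov (mem_image_of_mem T hx))
  obtain ⟨htS, y, hy, hyx⟩ := mem_iUnion.1 ht
  rw [← image_interior_aff] at hy
  obtain ⟨z, hz, rfl⟩ := hy
  refine mem_iUnion.2 ⟨T.linear.symm t, mem_iUnion.2 ⟨Finset.mem_image_of_mem _ htS, z, hz, ?_⟩⟩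
  apply T.injective
  have h1 := T.map_vadd z (T.linear.symm t)
  simp only [vadd_eq_add, LinearEquiv.apply_symm_apply] at h1
  exact h1.trans hyx

theorem exists_bound {n : ℕ} (hn : 0 < n) (hd : finrank ℝ E = n) {m : ℕ}
    (h : ∀ K : Set E, Convex ℝ K → IsCompact K → (interior K).Nonempty →
      {g : E ≃ᵃ[ℝ] E | g '' K = K}.Infinite → Cov m K) :
    ∃ N : ℕ, ∀ K : Set E, Convex ℝ K → IsCompact K → (interior K).Nonempty →
      (N : ℕ∞) < {g : E ≃ᵃ[ℝ] E | g '' K = K}.encard → Cov m K := by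
  classical
  have hdV : finrank ℝ (EuclideanSpace ℝ (Fin n)) = n := by simp
  let e : EuclideanSpace ℝ (Fin n) ≃ₗ[ℝ] E := LinearEquiv.ofFinrankEq _ _ (by rw [hd, hdV])
  obtain ⟨N, hN⟩ := bound_position hn (m := m) (fun K hK hc hi hinf => by
    refine cov_transfer e.toAffineEquiv (h _ (hK.affine_image e.toAffineEquiv.toAffineMap) ?_ ?_ ?_)
    · exact hc.image (e.toAffineEquiv.toHomeomorphOfFiniteDimensional).continuous
    · rw [← image_interior_aff]
      exact hi.image _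
    · refine Set.infinite_of_injOn_mapsTo
        (f := fun g : EuclideanSpace ℝ (Fin n) ≃ᵃ[ℝ] EuclideanSpace ℝ (Fin n) =>
          (e.toAffineEquiv.symm.trans (g.trans e.toAffineEquiv))) ?_ ?_ hinf
      · intro g _ g' _ hgg
        ext1 x
        have h1 := congrArg (fun f : E ≃ᵃ[ℝ] E => f (e x)) hgg
        have h2 : e (g (e.symm (e x))) = e (g' (e.symm (e x))) := h1
        rw [LinearEquiv.symm_apply_apply] at h2
        exact e.injective h2
      · intro g hg
        change _ '' _ = _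
        rw [AffineEquiv.coe_trans, AffineEquiv.coe_trans, image_comp, image_comp]
        have h1 : (e.toAffineEquiv.symm : E → _) '' (e.toAffineEquiv '' K) = K := by
          rw [← image_comp]
          have : (e.toAffineEquiv.symm : E → _) ∘ e.toAffineEquiv = id := by
            funext x
            exact e.toAffineEquiv.symm_apply_apply x
          rw [this, image_id]
        rw [h1]
        exact congrArg (fun s => e.toAffineEquiv '' s) hg)
  refine ⟨N, fun K hK hc hi hcard => ?_⟩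
  obtain ⟨T, hT1, hT2⟩ := exists_position hn hd hK hc hi
  refine cov_transfer T (hN _ (hK.affine_image T.toAffineMap)
    (hc.image (T.toHomeomorphOfFiniteDimensional).continuous) hT1 hT2 ?_)
  have h1 : ((N + 1 : ℕ) : ℕ∞) ≤ {g : E ≃ᵃ[ℝ] E | g '' K = K}.encard := by
    have := Order.add_one_le_of_lt hcard
    exact_mod_cast this
  obtain ⟨t, htK, ht⟩ := Set.exists_subset_encard_eq h1
  have htf : t.Finite := Set.finite_of_encard_eq_coe ht
  let c : (E ≃ᵃ[ℝ] E) → (EuclideanSpace ℝ (Fin n) ≃ᵃ[ℝ] EuclideanSpace ℝ (Fin n)) :=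
    fun g => T.symm.trans (g.trans T)
  have hcinj : Function.Injective c := by
    intro g g' hgg
    ext1 x
    have h2 := congrArg (fun f : EuclideanSpace ℝ (Fin n) ≃ᵃ[ℝ] EuclideanSpace ℝ (Fin n) =>
      f (T x)) hgg
    have h3 : T (g (T.symm (T x))) = T (g' (T.symm (T x))) := h2
    rw [AffineEquiv.symm_apply_apply] at h3
    exact T.injective h3
  refine ⟨htf.toFinset.image c, ?_, ?_⟩
  · rw [Finset.card_image_of_injective _ hcinj]
    have h4 : htf.toFinset.card = N + 1 := by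
      have := htf.encard_eq_coe_toFinset_card
      rw [ht] at this
      exact_mod_cast this.symm
    omega
  · intro g hg
    obtain ⟨g₀, hg₀, rfl⟩ := Finset.mem_image.1 hg
    have hgK : g₀ '' K = K := htK (htf.mem_toFinset.1 hg₀)
    change (T.symm.trans (g₀.trans T)) '' (T '' K) = T '' K
    rw [AffineEquiv.coe_trans, AffineEquiv.coe_trans, image_comp, image_comp]
    have h1 : (T.symm : _ → E) '' (T '' K) = K := by
      rw [← image_comp]
      have : (T.symm : _ → E) ∘ T = id := by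
        funext x
        exact T.symm_apply_apply x
      rw [this, image_id]
    rw [h1, hgK]

end

end Pool.Agent.Zk76.Wt
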