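import Mathlib
import Pool.Agent.Zk76.Wt.Weights
import Pool.Agent.Zk76.Wt.Bound

/-!
From the covering of bodies with a circle of symmetries to the covering of bodies with many.
-/

set_option autoImplicit false
set_option linter.style.haveILetI false
set_option linter.unusedSectionVars false
set_option linter.deprecated false

open Module Set Metric Filter Topology

namespace Pool.Agent.Zk76.Wt

/-- the hypothesis supplied by the covering theorem -/
def CoverWeights (m : ℕ) : Prop :=
  ∀ k : ℝ, 0 ≤ k → k ≤ 1 → ∀ K : Set (ℂ × ℂ), Convex ℝ K → IsCompact K → (interior K).Nonempty →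
    (∀ (t : ℝ) (x : ℂ × ℂ), x ∈ K →
      (Complex.exp ((k : ℂ) * (t : ℂ) * Complex.I) * x.1,
        Complex.exp ((t : ℂ) * Complex.I) * x.2) ∈ K) → Cov m K

theorem cov_infinite {E : Type*} [NormedAddCommGroup E] [NormedSpace ℝ E]
    (hd : finrank ℝ E = 4) {m : ℕ} (hcw : CoverWeights m) {K : Set E} (hK : Convex ℝ K)
    (hc : IsCompact K) (hi : (interior K).Nonempty)
    (hinf : {g : E ≃ᵃ[ℝ] E | g '' K = K}.Infinite) : Cov m K := by
  haveI : FiniteDimensional ℝ E := FiniteDimensional.of_finrank_pos (by omega)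
  obtain ⟨k, hk0, hk1, L, c, hL⟩ := exists_weights hd hc hi hinf
  let T : (ℂ × ℂ) ≃ᵃ[ℝ] E :=
    L.toLinearEquiv.toAffineEquiv.trans (AffineEquiv.constVAdd ℝ E c)
  have hT : ∀ z, T z = c + L z := fun z => rfl
  have hTs : (T : ℂ × ℂ → E) '' (T.symm '' K) = K := by
    rw [← image_comp]
    have : (T : ℂ × ℂ → E) ∘ T.symm = id := by
      funext x
      exact T.apply_symm_apply x
    rw [this, image_id]
  have hmem : ∀ z, z ∈ T.symm '' K ↔ c + L z ∈ K := by
    intro z
    constructor
    · rintro ⟨x, hx, rfl⟩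
      rw [← hT, T.apply_symm_apply]
      exact hx
    · intro h
      exact ⟨_, h, by rw [← hT, T.symm_apply_apply]⟩
  refine cov_transfer T.symm (hcw k hk0 hk1 _ (hK.affine_image T.symm.toAffineMap)
    (hc.image (T.symm.toHomeomorphOfFiniteDimensional).continuous) ?_ ?_)
  · rw [← image_interior_aff]
    exact hi.image _
  · intro t z hz
    rw [hmem] at hz ⊢
    exact hL t z hz

theorem cov_many {E : Type*} [NormedAddCommGroup E] [NormedSpace ℝ E]
    (hd : finrank ℝ E = 4) {m : ℕ} (hcw : CoverWeights m) :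
    ∃ N : ℕ, ∀ K : Set E, Convex ℝ K → IsCompact K → (interior K).Nonempty →
      (N : ℕ∞) < {g : E ≃ᵃ[ℝ] E | g '' K = K}.encard → Cov m K := by
  haveI : FiniteDimensional ℝ E := FiniteDimensional.of_finrank_pos (by omega)
  exact exists_bound (by norm_num) hd fun K hK hc hi hinf => cov_infinite hd hcw hK hc hi hinf

end Pool.Agent.Zk76.Wt
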