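import Mathlib
import Pool.Agent.Zk76.Wt.Assemble

/-!
Convex bodies near to convex bodies with many affine symmetries.
-/

set_option autoImplicit false
set_option linter.style.haveILetI false
set_option linter.unusedSectionVars false
set_option linter.deprecated false

open Module Set Metric Filter Topology

namespace Pool.Agent.Zk76.Wt

/-- A body between `L` and a translate of `(1 + ε) L` is near to `L`. -/
theorem dist_between {V : Type*} [NormedAddCommGroup V] [InnerProductSpace ℝ V]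
    {L K : Set V} {R ε : ℝ} (hL : IsCompact L) (hne : L.Nonempty) (hR : L ⊆ closedBall 0 R)
    (hR0 : 0 ≤ R) (hε : 0 ≤ ε) (hLK : L ⊆ K) {v : V}
    (hv : ∀ x ∈ K, ∃ y ∈ L, x = v + (1 + ε) • y) : hausdorffDist K L ≤ 2 * R * ε := by
  have hvb : ‖v‖ ≤ ε * R := by
    obtain ⟨x₀, hx₀, hmin⟩ := hL.exists_isMinOn hne (f := fun x => inner ℝ v x) (by fun_prop)
    obtain ⟨y, hy, hxy⟩ := hv x₀ (hLK hx₀)
    have h1 : inner ℝ v x₀ ≤ inner ℝ v y := hmin hy
    have h2 : inner ℝ v x₀ = ‖v‖ ^ 2 + (1 + ε) * inner ℝ v y := by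
      conv_lhs => rw [hxy]
      rw [inner_add_right, inner_smul_right, real_inner_self_eq_norm_sq]
    have h3 : |inner ℝ v x₀| ≤ ‖v‖ * ‖x₀‖ := abs_real_inner_le_norm _ _
    have h4 : ‖x₀‖ ≤ R := mem_closedBall_zero_iff.1 (hR hx₀)
    have h5 : ‖v‖ * ‖x₀‖ ≤ ‖v‖ * R := mul_le_mul_of_nonneg_left h4 (norm_nonneg _)
    have h6 := (abs_le.1 h3).1
    have h7 : ‖v‖ ^ 2 ≤ ε * (‖v‖ * R) := by nlinarith
    rcases (norm_nonneg v).eq_or_lt with h8 | h8
    · rw [← h8]; positivity
    · nlinarith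
  refine hausdorffDist_le_of_mem_dist (by positivity) ?_ ?_
  · intro x hx
    obtain ⟨y, hy, hxy⟩ := hv x hx
    refine ⟨y, hy, ?_⟩
    have h4 : ‖y‖ ≤ R := mem_closedBall_zero_iff.1 (hR hy)
    have h5 : x - y = v + ε • y := by
      rw [hxy]; module
    rw [dist_eq_norm, h5]
    calc ‖v + ε • y‖ ≤ ‖v‖ + ‖ε • y‖ := norm_add_le _ _
      _ ≤ ε * R + ε * R := by
        rw [norm_smul, Real.norm_of_nonneg hε]
        exact add_le_add hvb (mul_le_mul_of_nonneg_left h4 hε)
      _ = 2 * R * ε := by ring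
  · intro x hx
    exact ⟨x, hLK hx, by rw [dist_self]; positivity⟩

/-- convex bodies in position -/
theorem bound_position_near {n : ℕ} (hn : 0 < n) {m : ℕ}
    (h : ∀ K : Set (EuclideanSpace ℝ (Fin n)), Convex ℝ K → IsCompact K → (interior K).Nonempty →
      {g : EuclideanSpace ℝ (Fin n) ≃ᵃ[ℝ] EuclideanSpace ℝ (Fin n) | g '' K = K}.Infinite →
      Cov m K) :
    ∃ (N : ℕ) (ε : ℝ), 0 < ε ∧ ∀ L : Set (EuclideanSpace ℝ (Fin n)), Convex ℝ L → IsCompact L →
      closedBall (ctr n) (1 / (2 * (n : ℝ))) ⊆ L → L ⊆ closedBall 0 (n : ℝ) →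
      (∃ F : Finset (EuclideanSpace ℝ (Fin n) ≃ᵃ[ℝ] EuclideanSpace ℝ (Fin n)),
        N < F.card ∧ ∀ g ∈ F, g '' L = L) →
      ∀ K : Set (EuclideanSpace ℝ (Fin n)), Convex ℝ K → IsCompact K → L ⊆ K →
        (∃ v : EuclideanSpace ℝ (Fin n), ∀ x ∈ K, ∃ y ∈ L, x = v + (1 + ε) • y) → Cov m K := by
  by_contra hcon
  push Not at hcon
  have hcon' := fun k : ℕ => hcon k (1 / ((k : ℝ) + 1)) (by positivity)
  choose L hL hc hin hout hF K hK hKc hLK hex hcov using hcon'
  choose v hv using hex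
  have hnR : (0 : ℝ) < n := by exact_mod_cast hn
  have hr : 0 < 1 / (2 * (n : ℝ)) := by positivity
  have hne : ∀ k, (L k).Nonempty := fun k => ⟨_, hin k (mem_closedBall_self hr.le)⟩
  have hKne : ∀ k, (K k).Nonempty := fun k => (hne k).mono (hLK k)
  obtain ⟨M, hM, hMne, hMc, hMR, φ, hφ, hlim⟩ :=
    Pool.Agent.H318R3.St.blaschke L (n : ℝ) hc hne hL hout
  have hMin : closedBall (ctr n) (1 / (2 * (n : ℝ))) ⊆ M := by
    intro x hx
    exact lim_mem (K := fun k => L (φ k)) (fun _ => hc _) (fun _ => hne _) hM hMne hlim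
      (u := fun _ => x) (fun k => hin _ hx) tendsto_const_nhds
  have hMint : (interior M).Nonempty := by
    refine ⟨ctr n, mem_interior.2 ⟨ball (ctr n) (1 / (2 * (n : ℝ))),
      ball_subset_closedBall.trans hMin, isOpen_ball, mem_ball_self hr⟩⟩
  have hinf := limit_many (K := fun k => L (φ k)) (fun _ => hc _) hr (fun _ => hin _)
    (fun _ => hout _) hM hMne hlim (fun k => by
      obtain ⟨F, hF1, hF2⟩ := hF (φ k)
      exact ⟨F, lt_of_le_of_lt (hφ.id_le k) hF1, hF2⟩)
  obtain ⟨δ, hδ, hnear⟩ := cov_near hM hMne (h M hMc hM hMint hinf)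
  have hlimK : Tendsto (fun k => hausdorffDist (K (φ k)) M) atTop (𝓝 0) := by
    have h1 : Tendsto (fun k : ℕ => 2 * (n : ℝ) * (1 / (((φ k : ℕ) : ℝ) + 1)) +
        hausdorffDist (L (φ k)) M) atTop (𝓝 0) := by
      have h2 : Tendsto (fun k : ℕ => 2 * (n : ℝ) * (1 / (((φ k : ℕ) : ℝ) + 1))) atTop
          (𝓝 0) := by
        have h3 := (tendsto_one_div_add_atTop_nhds_zero_nat (𝕜 := ℝ)).const_mul (2 * (n : ℝ))
        rw [mul_zero] at h3
        exact h3.comp hφ.tendsto_atTop
      simpa using h2.add hlim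
    refine squeeze_zero (fun _ => hausdorffDist_nonneg) (fun k => ?_) h1
    have h2 := hausdorffDist_triangle (s := K (φ k)) (t := L (φ k)) (u := M)
      (Pool.Agent.H318R3.St.haus_fin (hKne _) (hne _) (hKc _) (hc _))
    have h3 := dist_between (hc (φ k)) (hne (φ k)) (hout (φ k)) hnR.le
      (by positivity : (0 : ℝ) ≤ 1 / ((φ k : ℝ) + 1)) (hLK (φ k)) (hv (φ k))
    linarith
  obtain ⟨k, hk⟩ := (hlimK.eventually (gt_mem_nhds hδ)).exists
  exact hcov (φ k) (hnear (K (φ k)) (hKc _) (hKne _) (hK _) hk)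

/-- affine maps and homothetic copies -/
theorem image_between {E V : Type*} [NormedAddCommGroup E] [NormedSpace ℝ E]
    [NormedAddCommGroup V] [NormedSpace ℝ V] (T : E ≃ᵃ[ℝ] V) {L K : Set E} {ε : ℝ} {v : E}
    (hv : ∀ x ∈ K, ∃ y ∈ L, x = v + (1 + ε) • y) :
    ∃ v' : V, ∀ x ∈ T '' K, ∃ y ∈ T '' L, x = v' + (1 + ε) • y := by
  refine ⟨T.linear v - ε • T 0, ?_⟩
  rintro _ ⟨x, hx, rfl⟩
  obtain ⟨y, hy, rfl⟩ := hv x hx
  refine ⟨T y, mem_image_of_mem T hy, ?_⟩
  have hTx : ∀ z, T z = T.linear z + T 0 := by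
    intro z
    have h1 := T.map_vadd 0 z
    simp only [vadd_eq_add, add_zero] at h1
    exact h1
  rw [hTx (v + (1 + ε) • y), hTx y, map_add, map_smul]
  module

variable {E : Type*} [NormedAddCommGroup E] [NormedSpace ℝ E] [FiniteDimensional ℝ E]

/-- **Bodies near to bodies with many symmetries.** -/
theorem exists_bound_near {n : ℕ} (hn : 0 < n) (hd : finrank ℝ E = n) {m : ℕ}
    (h : ∀ K : Set E, Convex ℝ K → IsCompact K → (interior K).Nonempty →
      {g : E ≃ᵃ[ℝ] E | g '' K = K}.Infinite → Cov m K) :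
    ∃ (N : ℕ) (ε : ℝ), 0 < ε ∧ ∀ (L K : Set E) (v : E), Convex ℝ L → IsCompact L →
      (interior L).Nonempty → (N : ℕ∞) < {g : E ≃ᵃ[ℝ] E | g '' L = L}.encard →
      Convex ℝ K → IsCompact K → L ⊆ K → K ⊆ (fun x => v + (1 + ε) • x) '' L → Cov m K := by
  classical
  have hdV : finrank ℝ (EuclideanSpace ℝ (Fin n)) = n := by simp
  let e : EuclideanSpace ℝ (Fin n) ≃ₗ[ℝ] E := LinearEquiv.ofFinrankEq _ _ (by rw [hd, hdV])
  obtain ⟨N, ε, hε, hN⟩ := bound_position_near hn (m := m) (fun K hK hc hi hinf => by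
    refine cov_transfer e.toAffineEquiv (h _ (hK.affine_image e.toAffineEquiv.toAffineMap) ?_ ?_ ?_)
    · exact hc.image (e.toAffineEquiv.toHomeomorphOfFiniteDimensional).continuous
    · rw [← image_interior_aff]
      exact hi.image _
    · refine Set.infinite_of_injOn_mapsTo
        (f := fun g : EuclideanSpace ℝ (Fin n) ≃ᵃ[ℝ] EuclideanSpace ℝ (Fin n) =>
          (e.toAffineEquiv.symm.trans (g.trans e.toAffineEquiv))) ?_ ?_ hinf
      · intro g _ g' _ hgg
        ext1 x
        have h1 := congrArg (fun f : E ≃ᵃ[ℝ] E => f (e x)) hgg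
        have h2 : e (g (e.symm (e x))) = e (g' (e.symm (e x))) := h1
        rw [LinearEquiv.symm_apply_apply] at h2
        exact e.injective h2
      · intro g hg
        change _ '' _ = _
        rw [AffineEquiv.coe_trans, AffineEquiv.coe_trans, image_comp, image_comp]
        have h1 : (e.toAffineEquiv.symm : E → _) '' (e.toAffineEquiv '' K) = K := by
          rw [← image_comp]
          have : (e.toAffineEquiv.symm : E → _) ∘ e.toAffineEquiv = id := by
            funext x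
            exact e.toAffineEquiv.symm_apply_apply x
          rw [this, image_id]
        rw [h1]
        exact congrArg (fun s => e.toAffineEquiv '' s) hg)
  refine ⟨N, ε, hε, fun L K v hL hc hi hcard hK hKc hLK hKL => ?_⟩
  obtain ⟨T, hT1, hT2⟩ := exists_position hn hd hL hc hi
  have hTc : Continuous T := (T.toHomeomorphOfFiniteDimensional).continuous
  have hv : ∀ x ∈ K, ∃ y ∈ L, x = v + (1 + ε) • y := by
    intro x hx
    obtain ⟨y, hy, hyx⟩ := hKL hx
    exact ⟨y, hy, hyx.symm⟩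
  refine cov_transfer T (hN _ (hL.affine_image T.toAffineMap) (hc.image hTc) hT1 hT2 ?_ _
    (hK.affine_image T.toAffineMap) (hKc.image hTc) (image_mono hLK) (image_between T hv))
  have h1 : ((N + 1 : ℕ) : ℕ∞) ≤ {g : E ≃ᵃ[ℝ] E | g '' L = L}.encard := by
    have := Order.add_one_le_of_lt hcard
    exact_mod_cast this
  obtain ⟨t, htK, ht⟩ := Set.exists_subset_encard_eq h1
  have htf : t.Finite := Set.finite_of_encard_eq_coe ht
  let c : (E ≃ᵃ[ℝ] E) → (EuclideanSpace ℝ (Fin n) ≃ᵃ[ℝ] EuclideanSpace ℝ (Fin n)) :=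
    fun g => T.symm.trans (g.trans T)
  have hcinj : Function.Injective c := by
    intro g g' hgg
    ext1 x
    have h2 := congrArg (fun f : EuclideanSpace ℝ (Fin n) ≃ᵃ[ℝ] EuclideanSpace ℝ (Fin n) =>
      f (T x)) hgg
    have h3 : T (g (T.symm (T x))) = T (g' (T.symm (T x))) := h2
    rw [AffineEquiv.symm_apply_apply] at h3
    exact T.injective h3
  refine ⟨htf.toFinset.image c, ?_, ?_⟩
  · rw [Finset.card_image_of_injective _ hcinj]
    have h4 : htf.toFinset.card = N + 1 := by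
      have := htf.encard_eq_coe_toFinset_card
      rw [ht] at this
      exact_mod_cast this.symm
    omega
  · intro g hg
    obtain ⟨g₀, hg₀, rfl⟩ := Finset.mem_image.1 hg
    have hgK : g₀ '' L = L := htK (htf.mem_toFinset.1 hg₀)
    change (T.symm.trans (g₀.trans T)) '' (T '' L) = T '' L
    rw [AffineEquiv.coe_trans, AffineEquiv.coe_trans, image_comp, image_comp]
    have h1 : (T.symm : _ → E) '' (T '' L) = L := by
      rw [← image_comp]
      have : (T.symm : _ → E) ∘ T = id := by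
        funext x
        exact T.symm_apply_apply x
      rw [this, image_id]
    rw [h1, hgK]

/-- a body lies in each of its homothetic copies with a centre in the body -/
theorem self_between {L : Set E} (hL : Convex ℝ L) {ε : ℝ} (hε : 0 < ε) {p : E} (hp : p ∈ L) :
    L ⊆ (fun x => -(ε • p) + (1 + ε) • x) '' L := by
  intro x hx
  have h1 : (0 : ℝ) < 1 + ε := by linarith
  refine ⟨(1 / (1 + ε)) • x + (ε / (1 + ε)) • p, hL hx hp (by positivity) (by positivity)
    (by field_simp), ?_⟩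
  simp only
  rw [smul_add, smul_smul, smul_smul, mul_div_cancel₀ _ h1.ne', mul_div_cancel₀ _ h1.ne', one_smul]
  abel

omit [FiniteDimensional ℝ E] in
/-- **Dimension four.** -/
theorem cov_many_near (hd : finrank ℝ E = 4) {m : ℕ} (hcw : CoverWeights m) :
    ∃ (N : ℕ) (ε : ℝ), 0 < ε ∧ ∀ (L K : Set E) (v : E), Convex ℝ L → IsCompact L →
      (interior L).Nonempty → (N : ℕ∞) < {g : E ≃ᵃ[ℝ] E | g '' L = L}.encard →
      Convex ℝ K → IsCompact K → L ⊆ K → K ⊆ (fun x => v + (1 + ε) • x) '' L → Cov m K := by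
  haveI : FiniteDimensional ℝ E := FiniteDimensional.of_finrank_pos (by omega)
  exact exists_bound_near (by norm_num) hd fun K hK hc hi hinf => cov_infinite hd hcw hK hc hi hinf

end Pool.Agent.Zk76.Wt
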